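import Pool.Agent.SEP.Defs

namespace Pool.Agent.SEP

open Polynomial

theorem isGamma_unique {d : ℕ} {p : ℤ[X]} {g g' : ℕ → ℤ} (h : IsGamma d p g)
    (h' : IsGamma d p g') : g = g' := by
  funext j
  induction j using Nat.strong_induction_on with
  | _ j ih =>
    by_cases hj : d / 2 < j
    · rw [h.2 j hj, h'.2 j hj]
    · have e : (∑ i ∈ Finset.range (d / 2 + 1), C (g i) * X ^ i * (1 + X) ^ (d - 2 * i) : ℤ[X]) =
          ∑ i ∈ Finset.range (d / 2 + 1), C (g' i) * X ^ i * (1 + X) ^ (d - 2 * i) := by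
        rw [← h.1, ← h'.1]
      have e2 := congrArg (fun q : ℤ[X] => q.coeff j) e
      simp only [finsetSum_coeff, mul_assoc, coeff_C_mul] at e2
      rw [← sub_eq_zero, ← Finset.sum_sub_distrib] at e2
      rw [Finset.sum_eq_single j] at e2
      · have hc : (X ^ j * (1 + X) ^ (d - 2 * j) : ℤ[X]).coeff j = 1 := by
          rw [coeff_X_pow_mul', if_pos le_rfl, Nat.sub_self, coeff_zero_eq_eval_zero]
          simp
        rw [hc] at e2
        linarith
      · intro i _ hij
        rcases lt_or_gt_of_ne hij with hlt | hgt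
        · rw [ih i hlt, sub_self]
        · have hc : (X ^ i * (1 + X) ^ (d - 2 * i) : ℤ[X]).coeff j = 0 := by
            rw [coeff_X_pow_mul', if_neg (by omega)]
          rw [hc]; simp
      · intro hn
        exact absurd (Finset.mem_range.2 (by omega)) hn

theorem isGraphGamma_unique {V : Type} [Fintype V] [DecidableEq V] {G : SimpleGraph V}
    {g g' : ℕ → ℤ} (h : IsGraphGamma G g) (h' : IsGraphGamma G g') : g = g' := by
  obtain ⟨p, hp, hg⟩ := h
  obtain ⟨p', hp', hg'⟩ := h'
  have : p = p' := by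
    apply Polynomial.coe_injective
    unfold IsHStar at hp hp'
    rw [← hp, ← hp']
  subst this
  exact isGamma_unique hg hg'

theorem isZ_unique {V : Type} [Fintype V] [DecidableEq V] {G : SimpleGraph V}
    {z z' : ℕ → ℤ} (h : IsZ G z) (h' : IsZ G z') : z = z' := by
  obtain ⟨g, f, h1, h2, h3⟩ := h
  obtain ⟨g', f', h1', h2', h3'⟩ := h'
  funext j
  rw [h3, h3']
  apply finsum_mem_congr rfl
  intro e he
  rw [isGraphGamma_unique h1 h1', isGraphGamma_unique (h2 e he) (h2' e he)]

end Pool.Agent.SEP
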