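import Mathlib

namespace Pool.Agent.SEP

open Finset

/-- values of an integer of given sign and absolute value at most `k` -/
noncomputable def vals (σ : SignType) (k : ℕ) : Finset ℤ :=
  (Finset.Icc (-(k : ℤ)) k).filter (fun a => SignType.sign a = σ)

theorem sum_choose (m k : ℕ) : ∑ b ∈ range k, Nat.choose (k - (b + 1)) m = Nat.choose k (m + 1) := by
  induction k with
  | zero => simp
  | succ k ih =>
    rw [Finset.sum_range_succ', Nat.choose_succ_succ, ← ih, add_comm]
    congr 1
    apply Finset.sum_congr rfl
    intro b _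
    congr 1
    omega

theorem sum_vals (σ : SignType) (k : ℕ) (f : ℕ → ℕ) :
    ∑ a ∈ vals σ k, f a.natAbs =
      if σ = 0 then f 0 else ∑ b ∈ range k, f (b + 1) := by
  rcases σ with _ | _ | _
  · -- zero
    have : vals SignType.zero k = {0} := by
      ext a
      simp only [vals, mem_filter, mem_Icc, mem_singleton]
      constructor
      · rintro ⟨-, h⟩
        exact sign_eq_zero_iff.1 h
      · rintro rfl
        refine ⟨by omega, by simp⟩
    rw [this]; simp
  · rw [if_neg (by decide)]
    symm
    apply Finset.sum_bij (fun (b : ℕ) (_ : b ∈ range k) => -((b : ℤ) + 1))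
    · intro b hb
      simp only [vals, mem_filter, mem_Icc, mem_range] at *
      refine ⟨by omega, ?_⟩
      exact sign_neg (by omega)
    · intro b _ c _ h; simpa using h
    · intro a ha
      simp only [vals, mem_filter, mem_Icc] at ha
      have h1 : a < 0 := sign_eq_neg_one_iff.1 ha.2
      refine ⟨a.natAbs - 1, by simp only [mem_range]; omega, by omega⟩
    · intro b _
      congr 1
  · rw [if_neg (by decide)]
    symm
    apply Finset.sum_bij (fun (b : ℕ) (_ : b ∈ range k) => ((b : ℤ) + 1))
    · intro b hb
      simp only [vals, mem_filter, mem_Icc, mem_range] at *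
      refine ⟨by omega, ?_⟩
      exact sign_pos (by omega)
    · intro b _ c _ h; simpa using h
    · intro a ha
      simp only [vals, mem_filter, mem_Icc] at ha
      have h1 : 0 < a := sign_eq_one_iff.1 ha.2
      refine ⟨a.natAbs - 1, by simp only [mem_range]; omega, by omega⟩
    · intro b _
      congr 1

theorem natAbs_le_of_mem_vals {σ : SignType} {k : ℕ} {a : ℤ} (h : a ∈ vals σ k) :
    a.natAbs ≤ k ∧ SignType.sign a = σ := by
  simp only [vals, mem_filter, mem_Icc] at h
  exact ⟨by omega, h.2⟩

theorem mem_vals {σ : SignType} {k : ℕ} {a : ℤ} :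
    a ∈ vals σ k ↔ a.natAbs ≤ k ∧ SignType.sign a = σ := by
  refine ⟨natAbs_le_of_mem_vals, fun h => ?_⟩
  simp only [vals, mem_filter, mem_Icc]
  exact ⟨by omega, h.2⟩

/-- the integer vectors with sign vector `σ` and absolute sum at most `k` -/
noncomputable def box : (n : ℕ) → (Fin n → SignType) → ℕ → Finset (Fin n → ℤ)
  | 0, _, _ => {Fin.elim0}
  | n + 1, σ, k => (vals (σ 0) k).biUnion fun a =>
      (box n (fun i => σ i.succ) (k - a.natAbs)).image (fun h => Fin.cons a h)

theorem mem_box : ∀ (n : ℕ) (σ : Fin n → SignType) (k : ℕ) (g : Fin n → ℤ),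
    g ∈ box n σ k ↔ (∀ i, SignType.sign (g i) = σ i) ∧ ∑ i, (g i).natAbs ≤ k := by
  intro n
  induction n with
  | zero =>
    intro σ k g
    simp only [box, mem_singleton, IsEmpty.forall_iff, univ_eq_empty, sum_empty, zero_le, and_self,
      iff_true]
    funext i; exact i.elim0
  | succ n ih =>
    intro σ k g
    simp only [box, mem_biUnion, mem_image]
    constructor
    · rintro ⟨a, ha, h, hh, rfl⟩
      rw [ih] at hh
      rw [mem_vals] at ha
      refine ⟨?_, ?_⟩
      · intro i
        refine Fin.cases ?_ (fun i => ?_) i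
        · simpa using ha.2
        · simpa using hh.1 i
      · rw [Fin.sum_univ_succ]
        simp only [Fin.cons_zero, Fin.cons_succ]
        have := hh.2; have := ha.1
        omega
    · rintro ⟨h1, h2⟩
      rw [Fin.sum_univ_succ] at h2
      refine ⟨g 0, ?_, fun i => g i.succ, ?_, ?_⟩
      · rw [mem_vals]
        exact ⟨by omega, h1 0⟩
      · rw [ih]
        exact ⟨fun i => h1 i.succ, by omega⟩
      · exact Fin.cons_self_tail g

theorem card_box : ∀ (n : ℕ) (σ : Fin n → SignType) (k : ℕ),
    (box n σ k).card = Nat.choose k ((univ.filter fun i => σ i ≠ 0).card) := by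
  intro n
  induction n with
  | zero => intro σ k; simp [box]
  | succ n ih =>
    intro σ k
    simp only [box]
    rw [Finset.card_biUnion]
    · have : ∀ a ∈ vals (σ 0) k,
          ((box n (fun i => σ i.succ) (k - a.natAbs)).image (fun h => (Fin.cons a h : Fin (n+1) → ℤ))).card
            = Nat.choose (k - a.natAbs) ((univ.filter fun i : Fin n => σ i.succ ≠ 0).card) := by
        intro a _
        rw [Finset.card_image_of_injective, ih]
        exact Fin.cons_right_injective (α := fun _ => ℤ) a
      rw [Finset.sum_congr rfl this]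
      rw [sum_vals (σ 0) k (fun a => Nat.choose (k - a) ((univ.filter fun i : Fin n => σ i.succ ≠ 0).card))]
      rw [Fin.card_filter_univ_succ]
      by_cases h : σ 0 = 0
      · simp [h]
      · rw [if_neg h, if_pos h, sum_choose]
    · intro a _ b _ hab
      rw [Function.onFun, Finset.disjoint_left]
      intro g hg hg'
      simp only [mem_image] at hg hg'
      obtain ⟨h, -, rfl⟩ := hg
      obtain ⟨h', -, e⟩ := hg'
      exact hab (by simpa using congrFun e.symm 0)

/-- counting integer vectors with absolute sum at most `k` whose sign vector lies in a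
given family -/
theorem ncard_sign {ι : Type} [Fintype ι] [DecidableEq ι] (Valid : (ι → SignType) → Prop) [DecidablePred Valid]
    (k : ℕ) :
    Set.ncard {g : ι → ℤ | Valid (fun i => SignType.sign (g i)) ∧ ∑ i, (g i).natAbs ≤ k} =
      ∑ σ ∈ univ.filter Valid, Nat.choose k ((univ.filter fun i => σ i ≠ 0).card) := by
  classical
  let e := Fintype.equivFin ι
  have h : {g : ι → ℤ | Valid (fun i => SignType.sign (g i)) ∧ ∑ i, (g i).natAbs ≤ k} =
      ((univ.filter Valid).biUnion fun σ =>
        (box (Fintype.card ι) (fun i => σ (e.symm i)) k).image (fun h i => h (e i)) :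
          Finset (ι → ℤ)) := by
    ext g
    simp only [Set.mem_ofPred_eq, coe_biUnion, Set.mem_iUnion, coe_filter, mem_univ, true_and,
      coe_image, Set.mem_image, mem_coe, mem_box, exists_prop]
    constructor
    · rintro ⟨hv, hs⟩
      refine ⟨_, hv, fun i => g (e.symm i), ⟨fun i => rfl, ?_⟩, ?_⟩
      · rw [Equiv.sum_comp e.symm (fun i => (g i).natAbs)]; exact hs
      · funext i; simp
    · rintro ⟨σ, hσ, f, ⟨h1, h2⟩, rfl⟩
      refine ⟨?_, ?_⟩
      · have : (fun i => SignType.sign (f (e i))) = σ := by
          funext i; rw [h1]; simp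
        rw [this]; exact hσ
      · rw [Equiv.sum_comp e (fun i => (f i).natAbs)]; exact h2
  rw [h, Set.ncard_coe_finset, Finset.card_biUnion]
  · refine Finset.sum_congr rfl fun σ _ => ?_
    rw [Finset.card_image_of_injective, card_box]
    · congr 1
      apply Finset.card_bij (fun i _ => e.symm i)
      · intro a ha; simpa using ha
      · intro a _ b _ hab; exact e.symm.injective hab
      · intro b hb; exact ⟨e b, by simpa using hb, by simp⟩
    · intro a b hab
      funext i
      have := congrFun hab (e.symm i)
      simpa using this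
  · intro σ _ τ _ hne
    rw [Function.onFun, Finset.disjoint_left]
    intro g hg hg'
    simp only [mem_image, mem_box] at hg hg'
    obtain ⟨a, ⟨ha, -⟩, rfl⟩ := hg
    obtain ⟨b, ⟨hb, -⟩, hab⟩ := hg'
    apply hne
    funext i
    have h1 := ha (e i)
    have h2 := hb (e i)
    have h3 := congrFun hab i
    simp only [Equiv.symm_apply_apply] at h1 h2
    rw [← h1, ← h2, h3]

open PowerSeries in
theorem mk_choose (m : ℕ) :
    PowerSeries.mk (fun k => (Nat.choose k m : ℤ)) * (1 - PowerSeries.X) ^ (m + 1)
      = PowerSeries.X ^ m := by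
  induction m with
  | zero =>
    simp only [Nat.choose_zero_right, Nat.cast_one, zero_add, pow_one, pow_zero]
    exact PowerSeries.mk_one_mul_one_sub_eq_one ℤ
  | succ m ih =>
    have h : PowerSeries.mk (fun k => (Nat.choose k (m + 1) : ℤ)) * (1 - PowerSeries.X)
        = PowerSeries.mk (fun k => (Nat.choose k m : ℤ)) * PowerSeries.X := by
      ext k
      rw [mul_sub, mul_one, map_sub]
      cases k with
      | zero => simp
      | succ k =>
        rw [PowerSeries.coeff_succ_mul_X, PowerSeries.coeff_succ_mul_X]
        simp only [PowerSeries.coeff_mk]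
        rw [Nat.choose_succ_succ]
        push_cast
        ring
    rw [pow_succ' (1 - PowerSeries.X : PowerSeries ℤ) (m + 1), ← mul_assoc, h, mul_right_comm, ih, pow_succ]

open PowerSeries in
theorem series_eq (f : ℕ → ℕ) (d : ℕ) (L : ℕ → ℕ)
    (hL : ∀ k, L k = ∑ m ∈ range (d + 1), f m * Nat.choose k m) :
    PowerSeries.mk (fun k => (L k : ℤ)) * (1 - PowerSeries.X) ^ (d + 1) =
      ((∑ m ∈ range (d + 1), Polynomial.C (f m : ℤ) * Polynomial.X ^ m *
        (1 - Polynomial.X) ^ (d - m) : Polynomial ℤ) : PowerSeries ℤ) := by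
  have h1 : PowerSeries.mk (fun k => (L k : ℤ)) =
      ∑ m ∈ range (d + 1), PowerSeries.C (f m : ℤ) * PowerSeries.mk (fun k => (Nat.choose k m : ℤ)) := by
    ext k
    rw [PowerSeries.coeff_mk, hL, map_sum]
    push_cast
    refine Finset.sum_congr rfl fun m _ => ?_
    rw [PowerSeries.coeff_C_mul, PowerSeries.coeff_mk]
  have h2 : ((∑ m ∈ range (d + 1), Polynomial.C (f m : ℤ) * Polynomial.X ^ m *
        (1 - Polynomial.X) ^ (d - m) : Polynomial ℤ) : PowerSeries ℤ) =
      ∑ m ∈ range (d + 1), PowerSeries.C (f m : ℤ) * PowerSeries.X ^ m *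
        (1 - PowerSeries.X) ^ (d - m) := by
    rw [← Polynomial.coeToPowerSeries.ringHom_apply, map_sum]
    refine Finset.sum_congr rfl fun m _ => ?_
    rw [map_mul, map_mul, map_pow, map_pow, map_sub, map_one,
      Polynomial.coeToPowerSeries.ringHom_apply, Polynomial.coeToPowerSeries.ringHom_apply,
      Polynomial.coe_C, Polynomial.coe_X]
  rw [h1, h2, Finset.sum_mul]
  refine Finset.sum_congr rfl fun m hm => ?_
  have hm' : m ≤ d := by simpa [Nat.lt_succ_iff] using hm
  have e : (1 - PowerSeries.X : PowerSeries ℤ) ^ (d + 1) =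
      (1 - PowerSeries.X) ^ (m + 1) * (1 - PowerSeries.X) ^ (d - m) := by
    rw [← pow_add]; congr 1; omega
  rw [e, mul_assoc, ← mul_assoc (PowerSeries.mk _), mk_choose, mul_assoc]

end Pool.Agent.SEP
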