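import Mathlib

namespace Pool.Agent.SEP

/-- evaluate `x` to a numeral before applying `f` -/
noncomputable def force (x : ℕ) (f : ℕ → ℕ) : ℕ :=
  @Nat.rec (fun _ => ℕ) (f 0) (fun n _ => f (Nat.succ n)) x

theorem force_eq (x : ℕ) (f : ℕ → ℕ) : force x f = f x := by cases x <;> rfl

/-- `w * G a` if no lane of `a` has overflown, otherwise `0` -/
noncomputable def stepF (H w : ℕ) (G : ℕ → ℕ) (a : ℕ) : ℕ :=
  @Nat.rec (fun _ => ℕ) (Nat.mul w (G a)) (fun _ _ => 0) (Nat.land a H)

theorem stepF_eq (H w : ℕ) (G : ℕ → ℕ) (a : ℕ) :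
    stepF H w G a = if a &&& H = 0 then w * G a else 0 := by
  unfold stepF
  have h : Nat.land a H = a &&& H := rfl
  rw [h]
  cases a &&& H <;> simp

/-- sum over the states of one level -/
noncomputable def sumStates (H : ℕ) (G : ℕ → ℕ) (L : List (ℕ × ℕ)) (acc : ℕ) : ℕ :=
  @List.rec (ℕ × ℕ) (fun _ => ℕ) 0
    (fun hd _ ih => Nat.add (force (Nat.add acc hd.1) (stepF H hd.2 G)) ih) L

theorem sumStates_eq (H : ℕ) (G : ℕ → ℕ) (L : List (ℕ × ℕ)) (acc : ℕ) :
    sumStates H G L acc =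
      (L.map fun d => d.2 * (if (acc + d.1) &&& H = 0 then G (acc + d.1) else 0)).sum := by
  induction L with
  | nil => rfl
  | cons d L ih =>
    rw [List.map_cons, List.sum_cons, ← ih]
    show Nat.add (force (Nat.add acc d.1) (stepF H d.2 G)) (sumStates H G L acc) = _
    rw [force_eq, stepF_eq]
    show (if (acc + d.1) &&& H = 0 then d.2 * G (acc + d.1) else 0) + sumStates H G L acc = _
    split_ifs <;> simp

/-- the enumeration -/
noncomputable def F (H : ℕ) (Ls : List (List (ℕ × ℕ))) (acc : ℕ) : ℕ :=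
  @List.rec (List (ℕ × ℕ)) (fun _ => ℕ → ℕ) (fun _ => 1)
    (fun L _ ih acc => sumStates H ih L acc) Ls acc

theorem F_nil (H acc : ℕ) : F H [] acc = 1 := rfl

theorem F_cons (H : ℕ) (L : List (ℕ × ℕ)) (Ls : List (List (ℕ × ℕ))) (acc : ℕ) :
    F H (L :: Ls) acc = sumStates H (F H Ls) L acc := rfl

/-- pack a vector of lanes into a number -/
def pk {Λ : Type} (lanes : List Λ) (A : Λ → ℕ) : ℕ :=
  lanes.foldr (fun l r => A l + 2 ^ 24 * r) 0

theorem pk_cons {Λ : Type} (l : Λ) (ls : List Λ) (A : Λ → ℕ) :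
    pk (l :: ls) A = A l + 2 ^ 24 * pk ls A := rfl

theorem pk_add {Λ : Type} (lanes : List Λ) (A B : Λ → ℕ) :
    pk lanes A + pk lanes B = pk lanes (fun l => A l + B l) := by
  induction lanes with
  | nil => rfl
  | cons l ls ih => rw [pk_cons, pk_cons, pk_cons, ← ih]; ring

theorem land_split (x y X Y : ℕ) (hx : x < 2 ^ 24) (hy : y < 2 ^ 24) :
    (x + 2 ^ 24 * X) &&& (y + 2 ^ 24 * Y) = (x &&& y) + 2 ^ 24 * (X &&& Y) := by
  have hxy : x &&& y < 2 ^ 24 := lt_of_le_of_lt Nat.and_le_left hx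
  apply Nat.eq_of_testBit_eq
  intro i
  rw [Nat.testBit_and, add_comm x, add_comm y, add_comm (x &&& y),
    Nat.testBit_two_pow_mul_add _ hx, Nat.testBit_two_pow_mul_add _ hy,
    Nat.testBit_two_pow_mul_add _ hxy]
  split_ifs <;> simp [Nat.testBit_and]

theorem land_top (x : ℕ) (hx : x < 2 ^ 24) : x &&& 2 ^ 23 = 0 ↔ x < 2 ^ 23 := by
  rw [Nat.and_two_pow]
  constructor
  · intro h
    by_contra hlt
    push Not at hlt
    have : x.testBit 23 = true := by
      rw [Nat.testBit_eq_decide_div_mod_eq]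
      have h1 : x / 2 ^ 23 = 1 := by omega
      rw [h1]; rfl
    rw [this] at h
    simp at h
  · intro h
    rw [Nat.testBit_lt_two_pow h]; simp

theorem lanes_ok {Λ : Type} (lanes : List Λ) (A : Λ → ℕ) (hA : ∀ l ∈ lanes, A l < 2 ^ 24) :
    pk lanes A &&& pk lanes (fun _ => 2 ^ 23) = 0 ↔ ∀ l ∈ lanes, A l < 2 ^ 23 := by
  induction lanes with
  | nil => simp [pk]
  | cons l ls ih =>
    rw [pk_cons, pk_cons, land_split _ _ _ _ (hA l (by simp)) (by norm_num)]
    have h1 := land_top (A l) (hA l (by simp))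
    have h2 := ih (fun l' hl' => hA l' (by simp [hl']))
    rw [List.forall_mem_cons, ← h1, ← h2]
    constructor
    · intro h; omega
    · rintro ⟨h3, h4⟩; rw [h3, h4]; rfl

theorem F_spec {Pat Λ : Type} [Fintype Pat] (lanes : List Λ) (M : ℕ) :
    ∀ (n : ℕ) (lvl : Fin n → List (ℕ × ℕ)) (w : Fin n → Pat → ℕ) (con : Fin n → Pat → Λ → ℕ)
      (_ : ∀ i, ∀ φ : ℕ → ℕ, ((lvl i).map fun d => d.2 * φ d.1).sum =
        ∑ s, w i s * φ (pk lanes (con i s)))
      (_ : ∀ i s, ∀ l ∈ lanes, con i s l ≤ M)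
      (A : Λ → ℕ) (_ : ∀ l ∈ lanes, A l + n * M < 2 ^ 24) (_ : ∀ l ∈ lanes, A l < 2 ^ 23),
      F (pk lanes (fun _ => 2 ^ 23)) (List.ofFn lvl) (pk lanes A) =
        ∑ σ : Fin n → Pat, (∏ i, w i (σ i)) *
          (if ∀ l ∈ lanes, A l + ∑ i, con i (σ i) l < 2 ^ 23 then 1 else 0) := by
  intro n
  induction n with
  | zero =>
    intro lvl w con _ _ A _ hA'
    simp only [List.ofFn_zero, F_nil, Finset.univ_eq_empty, Finset.prod_empty, Finset.sum_empty,
      add_zero, one_mul]
    rw [if_pos hA']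
    simp
  | succ n ih =>
    intro lvl w con hl hM A hA hA'
    rw [List.ofFn_succ, F_cons, sumStates_eq]
    rw [hl 0 (fun x => if (pk lanes A + x) &&& pk lanes (fun _ => 2 ^ 23) = 0 then
      F (pk lanes fun _ => 2 ^ 23) (List.ofFn fun i : Fin n => lvl i.succ) (pk lanes A + x) else 0)]
    rw [← (Fin.consEquiv (fun _ : Fin (n + 1) => Pat)).sum_comp, Fintype.sum_prod_type]
    refine Finset.sum_congr rfl fun s _ => ?_
    rw [pk_add]
    have hb : ∀ l ∈ lanes, A l + con 0 s l < 2 ^ 24 := by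
      intro l hl'
      have h1 := hA l hl'
      have h2 := hM 0 s l hl'
      have h3 : M ≤ (n + 1) * M := Nat.le_mul_of_pos_left _ (Nat.succ_pos _)
      omega
    by_cases hok : ∀ l ∈ lanes, A l + con 0 s l < 2 ^ 23
    · rw [if_pos ((lanes_ok lanes _ hb).2 hok)]
      rw [ih (fun i => lvl i.succ) (fun i => w i.succ) (fun i => con i.succ)
        (fun i => hl i.succ) (fun i => hM i.succ) (fun l => A l + con 0 s l) ?_ hok]
      · rw [Finset.mul_sum]
        refine Finset.sum_congr rfl fun τ _ => ?_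
        simp only [Fin.consEquiv, Equiv.coe_fn_mk, Fin.prod_univ_succ, Fin.sum_univ_succ,
          Fin.cons_zero, Fin.cons_succ]
        rw [mul_assoc]
        simp only [add_assoc]
      · intro l hl'
        have h1 := hA l hl'
        have h2 := hM 0 s l hl'
        have h3 : (n + 1) * M = n * M + M := by ring
        show A l + con 0 s l + n * M < 2 ^ 24
        omega
    · rw [if_neg (fun h => hok ((lanes_ok lanes _ hb).1 h)), mul_zero]
      symm
      refine Finset.sum_eq_zero fun τ _ => ?_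
      rw [if_neg, mul_zero]
      intro hcon
      apply hok
      intro l hl'
      have := hcon l hl'
      simp only [Fin.consEquiv, Equiv.coe_fn_mk, Fin.sum_univ_succ,
          Fin.cons_zero, Fin.cons_succ] at this
      omega

end Pool.Agent.SEP
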