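import Pool.Agent.SEP.Valid
import Pool.Agent.SEP.Enum
import Pool.Agent.SEP.Count

namespace Pool.Agent.SEP

/-- sign patterns of one base edge -/
abbrev Pat := Fin 3 → SignType

/-- number of positive entries -/
def posN (s : Pat) : ℕ :=
  (if s 0 = 1 then 1 else 0) + (if s 1 = 1 then 1 else 0) + (if s 2 = 1 then 1 else 0)

/-- number of negative entries -/
def negN (s : Pat) : ℕ :=
  (if s 0 = -1 then 1 else 0) + (if s 1 = -1 then 1 else 0) + (if s 2 = -1 then 1 else 0)

/-- all sign patterns -/
def patList : List Pat :=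
  ([1, 0, -1] : List SignType).flatMap fun a => ([1, 0, -1] : List SignType).flatMap fun b =>
    ([1, 0, -1] : List SignType).map fun c => ![a, b, c]

theorem univ_pat : (Finset.univ : Finset Pat) = patList.toFinset := by decide +kernel

theorem nodup_pat : patList.Nodup := by decide +kernel

/-- sum over the patterns supported on the mask `m` -/
theorem patSum (m : Fin 3 → Bool) (P : ℕ → ℕ → ℕ) :
    (∑ s : Pat, if (∀ i, m i = false → s i = 0) then P (posN s) (negN s) else 0) =
    (((patList.filter fun s => decide (∀ i, m i = false → s i = 0)).map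
      fun s => (posN s, negN s)).map fun p => P p.1 p.2).sum := by
  rw [univ_pat, List.sum_toFinset _ nodup_pat]
  generalize patList = L
  induction L with
  | nil => rfl
  | cons s L ih =>
    rw [List.map_cons, List.sum_cons, ih, List.filter_cons]
    by_cases h : ∀ i, m i = false → s i = 0
    · rw [if_pos h, if_pos (by simpa using h)]; simp
    · rw [if_neg h, if_neg (by simpa using h)]; simp

theorem patSum_ttt (m : Fin 3 → Bool) (hm : m = ![true, true, true]) (P : ℕ → ℕ → ℕ) :
    (∑ s : Pat, if (∀ i, m i = false → s i = 0)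
      then P (posN s) (negN s) else 0) =
    P 0 0 + 3 * P 1 0 + 3 * P 0 1 + 3 * P 2 0 + 6 * P 1 1 + 3 * P 0 2 + P 3 0 + 3 * P 2 1
      + 3 * P 1 2 + P 0 3 := by
  rw [patSum]
  have : (patList.filter fun s => decide (∀ i, m i = false → s i = 0)).map
      (fun s => (posN s, negN s)) = [(3, 0), (2, 0), (2, 1), (2, 0), (1, 0), (1, 1), (2, 1), (1, 1),
        (1, 2), (2, 0), (1, 0), (1, 1), (1, 0), (0, 0), (0, 1), (1, 1), (0, 1), (0, 2), (2, 1),
        (1, 1), (1, 2), (1, 1), (0, 1), (0, 2), (1, 2), (0, 2), (0, 3)] := by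
    subst hm; decide +kernel
  rw [this]
  simp only [List.map_cons, List.map_nil, List.sum_cons, List.sum_nil]
  ring

theorem patSum_tff (m : Fin 3 → Bool) (hm : m = ![true, false, false]) (P : ℕ → ℕ → ℕ) :
    (∑ s : Pat, if (∀ i, m i = false → s i = 0)
      then P (posN s) (negN s) else 0) = P 0 0 + P 1 0 + P 0 1 := by
  rw [patSum]
  have : (patList.filter fun s => decide (∀ i, m i = false → s i = 0)).map
      (fun s => (posN s, negN s)) = [(1, 0), (0, 0), (0, 1)] := by
    subst hm; decide +kernel
  rw [this]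
  simp only [List.map_cons, List.map_nil, List.sum_cons, List.sum_nil]
  ring

theorem patSum_fff (m : Fin 3 → Bool) (hm : m = ![false, false, false]) (P : ℕ → ℕ → ℕ) :
    (∑ s : Pat, if (∀ i, m i = false → s i = 0)
      then P (posN s) (negN s) else 0) = P 0 0 := by
  rw [patSum]
  have : (patList.filter fun s => decide (∀ i, m i = false → s i = 0)).map
      (fun s => (posN s, negN s)) = [(0, 0)] := by
    subst hm; decide +kernel
  rw [this]
  simp only [List.map_cons, List.map_nil, List.sum_cons, List.sum_nil]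
  ring

theorem patSum_two (m : Fin 3 → Bool)
    (hm : m = ![false, true, true] ∨ m = ![true, false, true] ∨ m = ![true, true, false])
    (P : ℕ → ℕ → ℕ) :
    (∑ s : Pat, if (∀ i, m i = false → s i = 0) then P (posN s) (negN s) else 0) =
      P 0 0 + 2 * P 1 0 + 2 * P 0 1 + P 2 0 + 2 * P 1 1 + P 0 2 := by
  rw [patSum]
  have : (patList.filter fun s => decide (∀ i, m i = false → s i = 0)).map
      (fun s => (posN s, negN s)) = [(2, 0), (1, 0), (1, 1), (1, 0), (0, 0), (0, 1), (1, 1),
        (0, 1), (0, 2)] := by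
    rcases hm with rfl | rfl | rfl <;> decide +kernel
  rw [this]
  simp only [List.map_cons, List.map_nil, List.sum_cons, List.sum_nil]
  ring

/-- the base used to pack the counts -/
def BB : ℕ := 2 ^ 48

/-- weights as natural numbers -/
def wtN (j : Fin 10) : ℕ :=
  ([32769, 32770, 32772, 32776, 32784, 32800, 32896, 33280, 34816, 40960] : List ℕ).getD j.val 0

/-- lengths of the base edges -/
def lenN (j : Fin 10) : ℕ := if j.val < 5 then 1 else 3

/-- lanes: auxiliary ones and one for each directed cycle -/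
abbrev Lane := ℕ ⊕ (Fin 10 → ℤ)

instance decBad (al : Fin 10 → Fin 3 → Bool) (j : Fin 10) : Decidable (Bad al j) := by
  unfold Bad; infer_instance

/-- some numbers used to spread the accumulated values -/
def rnd (t j : ℕ) : ℕ := (12347 * (t + 1) * (j + 3) * (j + 3) + 7919 * (j + 1) * (t + 5) * (t + 2) + 911) % 32749

/-- lane contribution of a positive unit edge -/
def PP (al : Fin 10 → Fin 3 → Bool) (j : Fin 10) : Lane → ℕ
  | Sum.inl t => if Bad al j then 0 else rnd t (2 * j.val)
  | Sum.inr c => if c j = -1 then 2 * wtN j else 0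

/-- lane contribution of a negative unit edge -/
def QQ (al : Fin 10 → Fin 3 → Bool) (j : Fin 10) : Lane → ℕ
  | Sum.inl t => if Bad al j then 0 else rnd t (2 * j.val + 1)
  | Sum.inr c => if c j = 1 then 2 * wtN j else 0

/-- lane contribution of a pattern -/
def con (al : Fin 10 → Fin 3 → Bool) (j : Fin 10) (s : Pat) (l : Lane) : ℕ :=
  PP al j l * posN s + QQ al j l * negN s

/-- the lanes -/
def lanes (al : Fin 10 → Fin 3 → Bool) : List Lane :=
  [Sum.inl 0, Sum.inl 1, Sum.inl 2] ++
    (cyc.filter fun c => decide (∀ j, Bad al j → c j = 0)).map Sum.inr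

/-- weight of a cycle -/
def wc (c : Fin 10 → ℤ) : ℕ := ∑ j, if c j = 0 then 0 else wtN j * lenN j

/-- initial value of a lane -/
def A0 : Lane → ℕ
  | Sum.inl _ => 0
  | Sum.inr c => 2 ^ 23 - wc c

/-- packed state of a level -/
def dl (al : Fin 10 → Fin 3 → Bool) (j : Fin 10) (p q : ℕ) : ℕ :=
  pk (lanes al) fun l => PP al j l * p + QQ al j l * q

/-- the states of a level -/
def lvlC (al : Fin 10 → Fin 3 → Bool) (j : Fin 10) : List (ℕ × ℕ) :=
  if Bad al j then
    (if j.val < 5 then [(0, 1)] else [(0, 1 + 4 * BB + 4 * BB ^ 2)])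
  else if j.val < 5 then
    [(dl al j 0 0, 1), (dl al j 1 0, BB), (dl al j 0 1, BB)]
  else
    [(dl al j 0 0, 1), (dl al j 1 0, 3 * BB), (dl al j 0 1, 3 * BB), (dl al j 2 0, 3 * BB ^ 2),
      (dl al j 1 1, 6 * BB ^ 2), (dl al j 0 2, 3 * BB ^ 2), (dl al j 3 0, BB ^ 3),
      (dl al j 2 1, 3 * BB ^ 3), (dl al j 1 2, 3 * BB ^ 3), (dl al j 0 3, BB ^ 3)]

/-- admissible configurations of alive edges -/
def OkAl (al : Fin 10 → Fin 3 → Bool) : Prop :=
  ∀ j : Fin 10, if Bad al j then
    (if j.val < 5 then al j = ![false, false, false] else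
      (al j = ![false, true, true] ∨ al j = ![true, false, true] ∨ al j = ![true, true, false]))
    else if j.val < 5 then al j = ![true, false, false] else al j = ![true, true, true]

instance (al : Fin 10 → Fin 3 → Bool) : Decidable (OkAl al) := by
  unfold OkAl; infer_instance

/-- weight of a pattern -/
def wS (al : Fin 10 → Fin 3 → Bool) (j : Fin 10) (s : Pat) : ℕ :=
  if (∀ i, al j i = false → s i = 0) then BB ^ (posN s + negN s) else 0

theorem pk_congr {Λ : Type} (ls : List Λ) (A B : Λ → ℕ) (h : ∀ l ∈ ls, A l = B l) :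
    pk ls A = pk ls B := by
  induction ls with
  | nil => rfl
  | cons l ls ih =>
    rw [pk_cons, pk_cons, h l (by simp), ih fun l' hl' => h l' (by simp [hl'])]

theorem pk_zero {Λ : Type} (ls : List Λ) : pk ls (fun _ => 0) = 0 := by
  induction ls with
  | nil => rfl
  | cons l ls ih => rw [pk_cons, ih]; rfl

theorem mem_lanes (al : Fin 10 → Fin 3 → Bool) (l : Lane) (hl : l ∈ lanes al) :
    (∃ t, l = Sum.inl t) ∨ ∃ c, l = Sum.inr c ∧ c ∈ cyc ∧ ∀ j, Bad al j → c j = 0 := by
  unfold lanes at hl
  rw [List.mem_append] at hl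
  rcases hl with hl | hl
  · left
    simp only [List.mem_cons, List.not_mem_nil, or_false] at hl
    rcases hl with rfl | rfl | rfl <;> exact ⟨_, rfl⟩
  · right
    rw [List.mem_map] at hl
    obtain ⟨c, hc, rfl⟩ := hl
    rw [List.mem_filter] at hc
    exact ⟨c, rfl, hc.1, by simpa using hc.2⟩

theorem bad_lane (al : Fin 10 → Fin 3 → Bool) (j : Fin 10) (hj : Bad al j) (l : Lane)
    (hl : l ∈ lanes al) : PP al j l = 0 ∧ QQ al j l = 0 := by
  rcases mem_lanes al l hl with ⟨t, rfl⟩ | ⟨c, rfl, hc, hb⟩
  · simp [PP, QQ, hj]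
  · simp [PP, QQ, hb j hj]

theorem level_ok (al : Fin 10 → Fin 3 → Bool) (hal : OkAl al) (j : Fin 10) (φ : ℕ → ℕ) :
    ((lvlC al j).map fun d => d.2 * φ d.1).sum =
      ∑ s, wS al j s * φ (pk (lanes al) (con al j s)) := by
  have h := hal j
  obtain ⟨P, hP⟩ : ∃ P : ℕ → ℕ → ℕ, ∀ p q, P p q = BB ^ (p + q) * φ (dl al j p q) :=
    ⟨_, fun _ _ => rfl⟩
  have hR : ∑ s, wS al j s * φ (pk (lanes al) (con al j s)) =
      ∑ s : Pat, if (∀ i, al j i = false → s i = 0) then P (posN s) (negN s) else 0 := by
    refine Finset.sum_congr rfl fun s _ => ?_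
    unfold wS
    split_ifs
    · rw [hP]; rfl
    · rw [zero_mul]
  rw [hR]
  by_cases hb : Bad al j
  · have hd : ∀ p q, dl al j p q = 0 := by
      intro p q
      unfold dl
      rw [pk_congr (lanes al) _ (fun _ => 0), pk_zero]
      intro l hl
      obtain ⟨h1, h2⟩ := bad_lane al j hb l hl
      rw [h1, h2]; simp
    unfold lvlC
    rw [if_pos hb] at h ⊢
    by_cases h5 : j.val < 5
    · rw [if_pos h5] at h ⊢
      rw [patSum_fff (al j) h P]
      simp only [hP, hd, List.map_cons, List.map_nil, List.sum_cons, List.sum_nil]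
      ring
    · rw [if_neg h5] at h ⊢
      rw [patSum_two (al j) h P]
      simp only [hP, hd, List.map_cons, List.map_nil, List.sum_cons, List.sum_nil]
      ring
  · unfold lvlC
    rw [if_neg hb] at h ⊢
    by_cases h5 : j.val < 5
    · rw [if_pos h5] at h ⊢
      rw [patSum_tff (al j) h P]
      simp only [hP, List.map_cons, List.map_nil, List.sum_cons, List.sum_nil]
      ring
    · rw [if_neg h5] at h ⊢
      rw [patSum_ttt (al j) h P]
      simp only [hP, List.map_cons, List.map_nil, List.sum_cons, List.sum_nil]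
      ring

theorem wtN_le : ∀ j, wtN j ≤ 40960 := by decide +kernel

theorem rnd_le (t j : ℕ) : rnd t j ≤ 32748 := by
  unfold rnd
  have := Nat.mod_lt (12347 * (t + 1) * (j + 3) * (j + 3) + 7919 * (j + 1) * (t + 5) * (t + 2) + 911)
    (show 0 < 32749 by norm_num)
  omega

theorem con_le (al : Fin 10 → Fin 3 → Bool) (j : Fin 10) (s : Pat) (l : Lane) :
    con al j s l ≤ 245760 := by
  have h1 : PP al j l ≤ 81920 := by
    unfold PP
    cases l with
    | inl t => simp only; split_ifs; · omega
               · have := rnd_le t (2 * j.val); omega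
    | inr c => simp only; split_ifs
               · have := wtN_le j; omega
               · omega
  have h2 : QQ al j l ≤ 81920 := by
    unfold QQ
    cases l with
    | inl t => simp only; split_ifs; · omega
               · have := rnd_le t (2 * j.val + 1); omega
    | inr c => simp only; split_ifs
               · have := wtN_le j; omega
               · omega
  have h3 : posN s + negN s ≤ 3 := by
    have : ∀ s : Pat, posN s + negN s ≤ 3 := by decide +kernel
    exact this s
  unfold con
  calc PP al j l * posN s + QQ al j l * negN s ≤ 81920 * posN s + 81920 * negN s := by gcongr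
    _ = 81920 * (posN s + negN s) := by ring
    _ ≤ 81920 * 3 := by gcongr
    _ = 245760 := by norm_num

theorem wc_le (c : Fin 10 → ℤ) (hc : c ∈ cyc) : wc c ≤ 2 ^ 22 := by
  have : ∀ c ∈ cyc, wc c ≤ 2 ^ 22 := by decide +kernel
  exact this c hc

theorem wc_pos (c : Fin 10 → ℤ) (hc : c ∈ cyc) : 0 < wc c := by
  have : ∀ c ∈ cyc, 0 < wc c := by decide +kernel
  exact this c hc

/-- validity of a sign vector -/
def VS (al : Fin 10 → Fin 3 → Bool) (σ : Fin 10 → Pat) : Prop :=
  (∀ j i, al j i = false → σ j i = 0) ∧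
    ∀ c ∈ cyc, (∀ j, Bad al j → c j = 0) → 0 < DZ (fun j i => ((σ j i : SignType) : ℤ)) c

instance (al : Fin 10 → Fin 3 → Bool) (σ : Fin 10 → Pat) : Decidable (VS al σ) := by
  unfold VS; infer_instance

theorem ddz_sign (a b : ℤ) : ddz ((SignType.sign a : SignType) : ℤ) b = ddz a b := by
  unfold ddz
  have : ((SignType.sign a : SignType) : ℤ) * b < 0 ↔ a * b < 0 := by
    rcases lt_trichotomy a 0 with h | rfl | h
    · rw [sign_neg h]
      simp only [SignType.coe_neg, SignType.coe_one, neg_mul, one_mul, Left.neg_neg_iff]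
      constructor
      · intro hb; exact mul_neg_of_neg_of_pos h hb
      · intro hb
        by_contra hcon
        push Not at hcon
        have := mul_nonneg_of_nonpos_of_nonpos h.le hcon
        omega
    · simp
    · rw [sign_pos h]
      simp only [SignType.coe_one, one_mul]
      constructor
      · intro hb; exact mul_neg_of_pos_of_neg h hb
      · intro hb
        by_contra hcon
        push Not at hcon
        have := mul_nonneg h.le hcon
        omega
  by_cases h : a * b < 0
  · rw [if_pos h, if_pos (this.2 h)]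
  · rw [if_neg h, if_neg (fun h' => h (this.1 h'))]

theorem valid_iff (al : Fin 10 → Fin 3 → Bool) (g : FlZ) :
    Valid al g ↔ VS al (fun j i => SignType.sign (g j i)) := by
  unfold Valid VS
  have h1 : ∀ c, DZ (fun j i => ((SignType.sign (g j i) : SignType) : ℤ)) c = DZ g c := by
    intro c
    unfold DZ
    simp only [ddz_sign]
  simp only [h1, sign_eq_zero_iff]

theorem dd3 : ∀ a b c : SignType, ∀ x : SignType, x ≠ 0 →
    ddz (a : ℤ) (x : ℤ) + ddz (b : ℤ) (x : ℤ) + ddz (c : ℤ) (x : ℤ) =
      3 - 2 * (((if a = -x then 1 else 0) + (if b = -x then 1 else 0) + (if c = -x then 1 else 0) : ℕ) : ℤ) := by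
  decide +kernel

theorem dd1 : ∀ a : SignType, ∀ x : SignType, x ≠ 0 →
    ddz (a : ℤ) (x : ℤ) = 1 - 2 * (((if a = -x then 1 else 0) : ℕ) : ℤ) := by
  decide +kernel

theorem wt_wtN : ∀ j, wt j = (wtN j : ℤ) := by decide +kernel

theorem lvl_identity (al : Fin 10 → Fin 3 → Bool) (hal : OkAl al) (σ : Fin 10 → Pat)
    (hσ : ∀ j i, al j i = false → σ j i = 0) (c : Fin 10 → ℤ) (hc : c ∈ cyc)
    (hb : ∀ j, Bad al j → c j = 0) (j : Fin 10) :
    wt j * lvA (fun j i => ((σ j i : SignType) : ℤ)) c j +
      ((con al j (σ j) (Sum.inr c) : ℕ) : ℤ) = ((if c j = 0 then 0 else wtN j * lenN j : ℕ) : ℤ) := by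
  rcases cyc_vals c hc j with h0 | h1
  · have hl : lvA (fun j i => ((σ j i : SignType) : ℤ)) c j = 0 := by
      unfold lvA lift
      rw [h0]; simp [ddz_zero]
    rw [hl, if_pos h0]
    simp [con, PP, QQ, h0]
  · have hc0 : c j ≠ 0 := by rcases h1 with h | h <;> rw [h] <;> decide
    have hnb : ¬ Bad al j := fun h => hc0 (hb j h)
    rw [if_neg hc0, wt_wtN]
    have h := hal j
    rw [if_neg hnb] at h
    by_cases h5 : j.val < 5
    · rw [if_pos h5] at h
      obtain ⟨a0, a1, a2⟩ := act_low j h5
      have s1 : σ j 1 = 0 := hσ j 1 (by rw [h]; rfl)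
      have s2 : σ j 2 = 0 := hσ j 2 (by rw [h]; rfl)
      have e : lvA (fun j i => ((σ j i : SignType) : ℤ)) c j = ddz ((σ j 0 : SignType) : ℤ) (c j) := by
        unfold lvA lift
        rw [Fin.sum_univ_three, a0, a1, a2]
        simp [ddz_zero]
      rw [e]
      unfold lenN
      rw [if_pos h5]
      rcases h1 with h1 | h1
      · have hcon : con al j (σ j) (Sum.inr c) = 2 * wtN j * negN (σ j) := by
          unfold con PP QQ; simp [h1]
        rw [hcon, h1]
        have := dd1 (σ j 0) 1 (by decide)
        rw [SignType.coe_one] at this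
        rw [this]
        unfold negN
        rw [s1, s2]
        push_cast
        ring
      · have hcon : con al j (σ j) (Sum.inr c) = 2 * wtN j * posN (σ j) := by
          unfold con PP QQ; simp [h1]
        rw [hcon, h1]
        have := dd1 (σ j 0) (-1) (by decide)
        rw [SignType.coe_neg_one] at this
        rw [this]
        unfold posN
        rw [s1, s2]
        push_cast
        rw [neg_neg]
        ring
    · rw [if_neg h5] at h
      obtain ⟨a0, a1, a2⟩ := act_high j (by omega)
      have e : lvA (fun j i => ((σ j i : SignType) : ℤ)) c j =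
          ddz ((σ j 0 : SignType) : ℤ) (c j) + ddz ((σ j 1 : SignType) : ℤ) (c j)
            + ddz ((σ j 2 : SignType) : ℤ) (c j) := by
        unfold lvA lift
        rw [Fin.sum_univ_three, a0, a1, a2]
        simp
      rw [e]
      unfold lenN
      rw [if_neg h5]
      rcases h1 with h1 | h1
      · have hcon : con al j (σ j) (Sum.inr c) = 2 * wtN j * negN (σ j) := by
          unfold con PP QQ; simp [h1]
        rw [hcon, h1]
        have := dd3 (σ j 0) (σ j 1) (σ j 2) 1 (by decide)
        rw [SignType.coe_one] at this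
        rw [this]
        unfold negN
        push_cast
        ring
      · have hcon : con al j (σ j) (Sum.inr c) = 2 * wtN j * posN (σ j) := by
          unfold con PP QQ; simp [h1]
        rw [hcon, h1]
        have := dd3 (σ j 0) (σ j 1) (σ j 2) (-1) (by decide)
        rw [SignType.coe_neg_one] at this
        rw [this]
        unfold posN
        push_cast
        rw [neg_neg]
        ring

end Pool.Agent.SEP
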