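import Pool.Agent.SEP.Data

namespace Pool.Agent.SEP

/-- indicator of the base edge `j` joining `u` to `v`, with sign -/
def ind (u v : Fin 5) (j : Fin 10) : ℤ :=
  (if bs j = u ∧ bt j = v then 1 else 0) - (if bt j = u ∧ bs j = v then 1 else 0)

/-- net flow from `u` to `v` -/
noncomputable def netf (z : Fin 10 → ℝ) (u v : Fin 5) : ℝ := ∑ j, z j * (ind u v j : ℝ)

/-- real circulations of the base graph -/
def Circ (z : Fin 10 → ℝ) : Prop := ∀ u : Fin 5, ∑ j, z j * (binc j u : ℝ) = 0

theorem ind_antisymm : ∀ u v j, ind u v j = - ind v u j := by decide +kernel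

theorem ind_sum : ∀ u j, ∑ v, ind u v j = - binc j u := by decide +kernel

theorem ind_base : ∀ j k, ind (bs j) (bt j) k = if k = j then 1 else 0 := by decide +kernel

theorem netf_antisymm (z : Fin 10 → ℝ) (u v : Fin 5) : netf z u v = - netf z v u := by
  unfold netf
  rw [← Finset.sum_neg_distrib]
  refine Finset.sum_congr rfl fun j _ => ?_
  rw [ind_antisymm u v j]; push_cast; ring

theorem netf_sum (z : Fin 10 → ℝ) (hz : Circ z) (u : Fin 5) : ∑ v, netf z u v = 0 := by
  unfold netf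
  rw [Finset.sum_comm]
  have : ∀ j, ∑ v, z j * (ind u v j : ℝ) = - (z j * (binc j u : ℝ)) := by
    intro j
    rw [← Finset.mul_sum, ← Int.cast_sum, ind_sum]; push_cast; ring
  rw [Finset.sum_congr rfl fun j _ => this j, Finset.sum_neg_distrib, hz u, neg_zero]

theorem netf_base (z : Fin 10 → ℝ) (j : Fin 10) : netf z (bs j) (bt j) = z j := by
  unfold netf
  rw [Finset.sum_eq_single j]
  · rw [ind_base]; simp
  · intro k _ hk
    rw [ind_base, if_neg hk]; simp
  · simp

theorem netf_step (z : Fin 10 → ℝ) (hz : Circ z) (u v : Fin 5) (h : 0 < netf z u v) :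
    ∃ w, 0 < netf z v w := by
  by_contra hcon
  push Not at hcon
  have h1 : ∑ w, netf z v w < 0 := by
    apply Finset.sum_neg' (fun w _ => hcon w)
    exact ⟨u, Finset.mem_univ _, by rw [netf_antisymm]; linarith⟩
  rw [netf_sum z hz] at h1
  exact lt_irrefl _ h1

theorem netf_ne (z : Fin 10 → ℝ) (u v : Fin 5) (h : 0 < netf z u v) : u ≠ v := by
  rintro rfl
  have := netf_antisymm z u u
  linarith

theorem netf_ne2 (z : Fin 10 → ℝ) (u v w : Fin 5) (h : 0 < netf z u v) (h' : 0 < netf z v w) :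
    u ≠ w := by
  rintro rfl
  have := netf_antisymm z u v
  linarith

theorem arcCode_inj : ∀ x y x' y' : Fin 5, arcCode x y = arcCode x' y' → x = x' ∧ y = y' := by
  decide +kernel

theorem exists_conf (z : Fin 10 → ℝ) (hne : z ≠ 0) (hz : Circ z) :
    ∃ c ∈ cyc, ∀ j, c j ≠ 0 → 0 < (c j : ℝ) * z j := by
  have h0 : ∃ u0 u1, 0 < netf z u0 u1 := by
    obtain ⟨j, hj⟩ := Function.ne_iff.1 hne
    simp only [Pi.zero_apply] at hj
    rcases lt_or_gt_of_ne hj with h | h
    · exact ⟨bt j, bs j, by rw [netf_antisymm, netf_base]; linarith⟩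
    · exact ⟨bs j, bt j, by rw [netf_base]; exact h⟩
  obtain ⟨u0, u1, h01⟩ := h0
  obtain ⟨u2, h12⟩ := netf_step z hz _ _ h01
  obtain ⟨u3, h23⟩ := netf_step z hz _ _ h12
  obtain ⟨u4, h34⟩ := netf_step z hz _ _ h23
  obtain ⟨u5, h45⟩ := netf_step z hz _ _ h34
  have hw := walk_cycle u0 u1 u2 u3 u4 u5
  have n1 := netf_ne z _ _ h01
  have n2 := netf_ne z _ _ h12
  have n3 := netf_ne z _ _ h23
  have n4 := netf_ne z _ _ h34
  have n5 := netf_ne z _ _ h45
  have n6 := netf_ne2 z _ _ _ h01 h12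
  have n7 := netf_ne2 z _ _ _ h12 h23
  have n8 := netf_ne2 z _ _ _ h23 h34
  have n9 := netf_ne2 z _ _ _ h34 h45
  simp only [Bool.or_eq_true, beq_iff_eq, n1, n2, n3, n4, n5, n6, n7, n8, n9, false_or] at hw
  unfold hasCycle at hw
  rw [List.any_eq_true] at hw
  obtain ⟨l, hl, hall⟩ := hw
  rw [List.all_eq_true] at hall
  have harc : ∀ x y : Fin 5, 5 * x.val + y.val ∈ l.1 → 0 < netf z x y := by
    intro x y hxy
    have := hall _ hxy
    change inWalk _ _ _ _ _ (arcCode x y) = true at this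
    simp only [inWalk, Bool.or_eq_true] at this
    rcases this with (((h | h) | h) | h) | h
    · obtain ⟨rfl, rfl⟩ := arcCode_inj _ _ _ _ (Nat.eq_of_beq_eq_true h); exact h01
    · obtain ⟨rfl, rfl⟩ := arcCode_inj _ _ _ _ (Nat.eq_of_beq_eq_true h); exact h12
    · obtain ⟨rfl, rfl⟩ := arcCode_inj _ _ _ _ (Nat.eq_of_beq_eq_true h); exact h23
    · obtain ⟨rfl, rfl⟩ := arcCode_inj _ _ _ _ (Nat.eq_of_beq_eq_true h); exact h34
    · obtain ⟨rfl, rfl⟩ := arcCode_inj _ _ _ _ (Nat.eq_of_beq_eq_true h); exact h45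
  have hmem : (fun j : Fin 10 => l.2.getD j.val 0) ∈ cyc := List.mem_map_of_mem hl
  refine ⟨_, hmem, fun j hj => ?_⟩
  rcases cyc_vals _ hmem j with h | h | h
  · exact absurd h hj
  · have := harc _ _ ((cyc_arcs l hl j).1 h)
    rw [netf_base] at this
    rw [h]; simpa using this
  · have := harc _ _ ((cyc_arcs l hl j).2 h)
    rw [netf_antisymm, netf_base] at this
    rw [h]; simpa using this

/-- lift of a vector of the base graph to the subdivided graph -/
def lift {R : Type} [Zero R] (z : Fin 10 → R) (j : Fin 10) (i : Fin 3) : R :=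
  if act j i then z j else 0

/-- cost difference of adding `b` to `a` (to first order) -/
noncomputable def dd (a b : ℝ) : ℝ := if a * b < 0 then -|b| else |b|

/-- integer version of `dd` -/
def ddz (a b : ℤ) : ℤ := if a * b < 0 then -|b| else |b|

theorem ddz_cast (a b : ℤ) : ((ddz a b : ℤ) : ℝ) = dd a b := by
  unfold ddz dd
  have : ((a : ℝ) * b < 0) ↔ (a * b < 0) := by exact_mod_cast Iff.rfl
  by_cases h : a * b < 0
  · rw [if_pos h, if_pos (this.2 h)]; push_cast; rfl
  · rw [if_neg h, if_neg (fun h' => h (this.1 h'))]; push_cast; rfl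

theorem dd_zero (a : ℝ) : dd a 0 = 0 := by simp [dd]

theorem dd_le (a b : ℝ) : |a| + dd a b ≤ |a + b| := by
  unfold dd
  split_ifs with h
  · have := abs_sub_abs_le_abs_sub a (-b)
    rw [abs_neg, sub_neg_eq_add] at this
    linarith
  · push Not at h
    rcases mul_nonneg_iff.1 h with ⟨h1, h2⟩ | ⟨h1, h2⟩
    · rw [abs_of_nonneg h1, abs_of_nonneg h2, abs_of_nonneg (add_nonneg h1 h2)]
    · rw [abs_of_nonpos h1, abs_of_nonpos h2, abs_of_nonpos (add_nonpos h1 h2)]
      linarith

theorem ddz_eq (a b : ℤ) (hb : b = 0 ∨ b = 1 ∨ b = -1) : |a + b| = |a| + ddz a b := by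
  unfold ddz
  rcases hb with rfl | rfl | rfl
  · simp
  · by_cases h : a * 1 < 0
    · rw [if_pos h]
      have h1 : a < 0 := by linarith
      rw [abs_of_neg h1, abs_of_nonpos (by omega)]; simp; ring
    · rw [if_neg h]
      have h1 : 0 ≤ a := by linarith
      rw [abs_of_nonneg h1, abs_of_nonneg (by omega)]; simp
  · by_cases h : a * (-1) < 0
    · rw [if_pos h]
      have h1 : 0 < a := by linarith
      rw [abs_of_pos h1, abs_of_nonneg (by omega)]; simp
    · rw [if_neg h]
      have h1 : a ≤ 0 := by linarith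
      rw [abs_of_nonpos h1, abs_of_nonpos (by omega)]; simp; ring

theorem dd_conf (a b c l : ℝ) (hl : 0 ≤ l) (hbc : 0 ≤ b * c) :
    dd a (b + l * c) = dd a b + l * dd a c := by
  rcases eq_or_lt_of_le hl with rfl | hl
  · simp
  rcases eq_or_ne c 0 with rfl | hc
  · simp [dd_zero]
  rcases eq_or_ne b 0 with rfl | hb
  · simp only [zero_add, dd_zero]
    unfold dd
    have h1 : (a * (l * c) < 0) ↔ (a * c < 0) := by
      rw [show a * (l * c) = l * (a * c) by ring]
      exact ⟨fun h => by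
        by_contra h'
        push Not at h'
        exact absurd (mul_nonneg hl.le h') (not_le.2 h), fun h => mul_neg_of_pos_of_neg hl h⟩
    by_cases h : a * c < 0
    · rw [if_pos h, if_pos (h1.2 h), abs_mul, abs_of_pos hl]; ring
    · rw [if_neg h, if_neg (fun h' => h (h1.1 h')), abs_mul, abs_of_pos hl]
  have hpos : 0 < b * c := lt_of_le_of_ne hbc (Ne.symm (mul_ne_zero hb hc))
  rcases pos_and_pos_or_neg_and_neg_of_mul_pos hpos with ⟨h1, h2⟩ | ⟨h1, h2⟩
  · have h3 : 0 < b + l * c := by positivity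
    unfold dd
    rcases lt_or_ge a 0 with ha | ha
    · rw [if_pos (mul_neg_of_neg_of_pos ha h3), if_pos (mul_neg_of_neg_of_pos ha h1),
        if_pos (mul_neg_of_neg_of_pos ha h2), abs_of_pos h1, abs_of_pos h2, abs_of_pos h3]
      ring
    · rw [if_neg (not_lt.2 (mul_nonneg ha h3.le)), if_neg (not_lt.2 (mul_nonneg ha h1.le)),
        if_neg (not_lt.2 (mul_nonneg ha h2.le)), abs_of_pos h1, abs_of_pos h2, abs_of_pos h3]
  · have h3 : b + l * c < 0 := by
      have := mul_neg_of_pos_of_neg hl h2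
      linarith
    unfold dd
    rcases le_or_gt a 0 with ha | ha
    · rw [if_neg (not_lt.2 (mul_nonneg_of_nonpos_of_nonpos ha h3.le)),
        if_neg (not_lt.2 (mul_nonneg_of_nonpos_of_nonpos ha h1.le)),
        if_neg (not_lt.2 (mul_nonneg_of_nonpos_of_nonpos ha h2.le)), abs_of_neg h1, abs_of_neg h2,
        abs_of_neg h3]
      ring
    · rw [if_pos (mul_neg_of_pos_of_neg ha h3), if_pos (mul_neg_of_pos_of_neg ha h1),
        if_pos (mul_neg_of_pos_of_neg ha h2), abs_of_neg h1, abs_of_neg h2, abs_of_neg h3]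
      ring

/-- first-order change of the weighted cost -/
noncomputable def DR (w : Fin 10 → ℝ) (g : Fin 10 → Fin 3 → ℤ) (z : Fin 10 → Fin 3 → ℝ) : ℝ :=
  ∑ j, ∑ i, w j * dd (g j i) (z j i)

theorem DR_zero (w : Fin 10 → ℝ) (g : Fin 10 → Fin 3 → ℤ) : DR w g (lift 0) = 0 := by
  unfold DR
  refine Finset.sum_eq_zero fun j _ => Finset.sum_eq_zero fun i _ => ?_
  simp [lift, dd_zero]

/-- one step of the conformal decomposition -/
theorem conf_step (z : Fin 10 → ℝ) (hne : z ≠ 0) (hz : Circ z) :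
    ∃ c ∈ cyc, ∃ l : ℝ, 0 < l ∧ ∃ z' : Fin 10 → ℝ, Circ z' ∧
      (∀ j, z j = 0 → z' j = 0) ∧ (∀ j, z j = 0 → c j = 0) ∧ (∃ j, z j ≠ 0 ∧ z' j = 0) ∧
      ∀ (w : Fin 10 → ℝ) (g : Fin 10 → Fin 3 → ℤ),
        DR w g (lift z) = DR w g (lift z') + l * DR w g (lift fun j => (c j : ℝ)) := by
  obtain ⟨c, hc, hconf⟩ := exists_conf z hne hz
  have hJ : (Finset.univ.filter fun j => c j ≠ 0).Nonempty := by
    obtain ⟨j, hj⟩ := cyc_ne c hc
    exact ⟨j, by simpa using hj⟩
  obtain ⟨j0, hj0, hmin⟩ := Finset.exists_min_image _ (fun j => (c j : ℝ) * z j) hJ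
  simp only [Finset.mem_filter, Finset.mem_univ, true_and] at hj0 hmin
  have hl := hconf j0 hj0
  refine ⟨c, hc, (c j0 : ℝ) * z j0, hl, fun j => z j - (c j0 : ℝ) * z j0 * c j, ?_, ?_, ?_, ?_, ?_⟩
  · intro u
    have h1 := hz u
    have h2 : ∑ j, (c j : ℝ) * (binc j u : ℝ) = 0 := by
      have := cyc_bcirc c hc u
      exact_mod_cast this
    calc ∑ j, (z j - (c j0 : ℝ) * z j0 * c j) * (binc j u : ℝ)
        = ∑ j, z j * (binc j u : ℝ) - ((c j0 : ℝ) * z j0) * ∑ j, (c j : ℝ) * (binc j u : ℝ) := by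
          rw [Finset.mul_sum, ← Finset.sum_sub_distrib]
          exact Finset.sum_congr rfl fun j _ => by ring
      _ = 0 := by rw [h1, h2]; ring
  · intro j hj
    have : c j = 0 := by
      by_contra hcj
      have := hconf j hcj
      rw [hj] at this; simp at this
    simp [hj, this]
  · intro j hj
    by_contra hcj
    have := hconf j hcj
    rw [hj] at this; simp at this
  · refine ⟨j0, ?_, ?_⟩
    · intro h; rw [h] at hl; simp at hl
    · rcases cyc_vals c hc j0 with h | h | h
      · exact absurd h hj0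
      · simp [h]
      · simp [h]
  · intro w g
    unfold DR
    rw [Finset.mul_sum, ← Finset.sum_add_distrib]
    refine Finset.sum_congr rfl fun j _ => ?_
    rw [Finset.mul_sum, ← Finset.sum_add_distrib]
    refine Finset.sum_congr rfl fun i _ => ?_
    unfold lift
    by_cases ha : act j i = true
    · simp only [ha, if_true]
      have hbc : 0 ≤ (z j - (c j0 : ℝ) * z j0 * c j) * (c j : ℝ) := by
        by_cases hcj : c j = 0
        · simp [hcj]
        · have h1 := hmin j hcj
          have h2 : (c j : ℝ) * c j = 1 := by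
            rcases cyc_vals c hc j with h | h | h
            · exact absurd h hcj
            · simp [h]
            · simp [h]
          nlinarith
      have h3 : z j = (z j - (c j0 : ℝ) * z j0 * c j) + ((c j0 : ℝ) * z j0) * c j := by ring
      have h4 := dd_conf (g j i) (z j - (c j0 : ℝ) * z j0 * c j) (c j) ((c j0 : ℝ) * z j0) hl.le hbc
      rw [← h3] at h4
      rw [h4]; ring
    · simp [ha, dd_zero]

theorem DR_nonneg (w : Fin 10 → ℝ) (g : Fin 10 → Fin 3 → ℤ) (bad : Fin 10 → Prop)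
    (hg : ∀ c ∈ cyc, (∀ j, bad j → c j = 0) → 0 ≤ DR w g (lift fun j => (c j : ℝ)))
    (z : Fin 10 → ℝ) (hz : Circ z) (hb : ∀ j, bad j → z j = 0) : 0 ≤ DR w g (lift z) := by
  have key : ∀ n : ℕ, ∀ z : Fin 10 → ℝ, (Finset.univ.filter fun j => z j ≠ 0).card = n →
      Circ z → (∀ j, bad j → z j = 0) → 0 ≤ DR w g (lift z) := by
    intro n
    induction n using Nat.strong_induction_on with
    | _ n ih =>
      intro z hn hz hb
      by_cases hne : z = 0
      · rw [hne, DR_zero]
      · obtain ⟨c, hc, l, hl, z', hz', h1, h2, ⟨j0, h3, h3'⟩, h4⟩ := conf_step z hne hz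
        rw [h4]
        have hlt : (Finset.univ.filter fun j => z' j ≠ 0).card < n := by
          rw [← hn]
          apply Finset.card_lt_card
          rw [Finset.ssubset_iff_of_subset]
          · exact ⟨j0, by simpa using h3, by simpa using h3'⟩
          · intro j hj
            simp only [Finset.mem_filter, Finset.mem_univ, true_and] at *
            exact fun h => hj (h1 j h)
        have e1 := ih _ hlt z' rfl hz' (fun j hj => h1 j (hb j hj))
        have e2 := hg c hc (fun j hj => h2 j (hb j hj))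
        have e3 := mul_nonneg hl.le e2
        linarith
  exact key _ z rfl hz hb

theorem DR_pos (w : Fin 10 → ℝ) (g : Fin 10 → Fin 3 → ℤ) (bad : Fin 10 → Prop)
    (hg : ∀ c ∈ cyc, (∀ j, bad j → c j = 0) → 0 < DR w g (lift fun j => (c j : ℝ)))
    (z : Fin 10 → ℝ) (hne : z ≠ 0) (hz : Circ z) (hb : ∀ j, bad j → z j = 0) :
    0 < DR w g (lift z) := by
  obtain ⟨c, hc, l, hl, z', hz', h1, h2, -, h4⟩ := conf_step z hne hz
  rw [h4]
  have e1 := DR_nonneg w g bad (fun c hc h => (hg c hc h).le) z' hz' (fun j hj => h1 j (hb j hj))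
  have e2 := hg c hc (fun j hj => h2 j (hb j hj))
  have e3 := mul_pos hl e2
  linarith

end Pool.Agent.SEP
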