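import Mathlib

/-! The base graph is `K_5` with ten edges: `0..4` are kept, `5..9` are replaced by paths of
length three. Flows on the resulting graph are functions `Fin 10 → Fin 3 → R`. -/

namespace Pool.Agent.SEP

/-- tails of the base edges -/
def bs (j : Fin 10) : Fin 5 := ([0, 2, 4, 1, 3, 0, 1, 2, 3, 4] : List (Fin 5)).getD j.val 0

/-- heads of the base edges -/
def bt (j : Fin 10) : Fin 5 := ([2, 4, 1, 3, 0, 1, 2, 3, 4, 0] : List (Fin 5)).getD j.val 0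

/-- tail of the unit edge `(j, i)` -/
def sV (j : Fin 10) (i : Fin 3) : Fin 15 :=
  (([[0, 0, 0], [2, 0, 0], [4, 0, 0], [1, 0, 0], [3, 0, 0],
    [0, 5, 6], [1, 7, 8], [2, 9, 10], [3, 11, 12], [4, 13, 14]] :
      List (List (Fin 15))).getD j.val []).getD i.val 0

/-- head of the unit edge `(j, i)` -/
def tV (j : Fin 10) (i : Fin 3) : Fin 15 :=
  (([[2, 0, 0], [4, 0, 0], [1, 0, 0], [3, 0, 0], [0, 0, 0],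
    [5, 6, 1], [7, 8, 2], [9, 10, 3], [11, 12, 4], [13, 14, 0]] :
      List (List (Fin 15))).getD j.val []).getD i.val 0

/-- `(j, i)` is a unit edge of the graph -/
def act (j : Fin 10) (i : Fin 3) : Bool := Nat.ble 5 j.val || Nat.beq i.val 0

/-- incidence numbers of the unit edges -/
def inc (j : Fin 10) (i : Fin 3) (v : Fin 15) : ℤ :=
  (if tV j i = v then 1 else 0) - (if sV j i = v then 1 else 0)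

/-- incidence numbers of the base edges -/
def binc (j : Fin 10) (u : Fin 5) : ℤ :=
  (if bt j = u then 1 else 0) - (if bs j = u then 1 else 0)

/-- the directed cycles of `K_5`: their arcs `(x, y)`, coded as `5 x + y`, and their vectors
indexed by the base edges -/
def cycRaw : List (List ℕ × List ℤ) :=
  [([10, 1, 7], [-1, 0, 0, 0, 0, 1, 1, 0, 0, 0]),
  ([8, 15, 1], [0, 0, 0, 1, 1, 1, 0, 0, 0, 0]),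
  ([9, 1, 20], [0, 0, -1, 0, 0, 1, 0, 0, 0, 1]),
  ([2, 5, 11], [1, 0, 0, 0, 0, -1, -1, 0, 0, 0]),
  ([2, 15, 13], [1, 0, 0, 0, 1, 0, 0, 1, 0, 0]),
  ([2, 14, 20], [1, 1, 0, 0, 0, 0, 0, 0, 0, 1]),
  ([16, 3, 5], [0, 0, 0, -1, -1, -1, 0, 0, 0, 0]),
  ([10, 3, 17], [-1, 0, 0, 0, -1, 0, 0, -1, 0, 0]),
  ([3, 19, 20], [0, 0, 0, 0, -1, 0, 0, 0, 1, 1]),
  ([21, 5, 4], [0, 0, 1, 0, 0, -1, 0, 0, 0, -1]),
  ([10, 22, 4], [-1, -1, 0, 0, 0, 0, 0, 0, 0, -1]),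
  ([15, 23, 4], [0, 0, 0, 0, 1, 0, 0, 0, -1, -1]),
  ([16, 7, 13], [0, 0, 0, -1, 0, 0, 1, 1, 0, 0]),
  ([14, 21, 7], [0, 1, 1, 0, 0, 0, 1, 0, 0, 0]),
  ([8, 11, 17], [0, 0, 0, 1, 0, 0, -1, -1, 0, 0]),
  ([21, 8, 19], [0, 0, 1, 1, 0, 0, 0, 0, 1, 0]),
  ([22, 9, 11], [0, -1, -1, 0, 0, 0, -1, 0, 0, 0]),
  ([9, 16, 23], [0, 0, -1, -1, 0, 0, 0, 0, -1, 0]),
  ([22, 13, 19], [0, -1, 0, 0, 0, 0, 0, 1, 1, 0]),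
  ([14, 17, 23], [0, 1, 0, 0, 0, 0, 0, -1, -1, 0]),
  ([15, 1, 7, 13], [0, 0, 0, 0, 1, 1, 1, 1, 0, 0]),
  ([14, 1, 7, 20], [0, 1, 0, 0, 0, 1, 1, 0, 0, 1]),
  ([10, 8, 1, 17], [-1, 0, 0, 1, 0, 1, 0, -1, 0, 0]),
  ([8, 1, 19, 20], [0, 0, 0, 1, 0, 1, 0, 0, 1, 1]),
  ([10, 22, 9, 1], [-1, -1, -1, 0, 0, 1, 0, 0, 0, 0]),
  ([9, 15, 1, 23], [0, 0, -1, 0, 1, 1, 0, 0, -1, 0]),
  ([2, 8, 15, 11], [1, 0, 0, 1, 1, 0, -1, 0, 0, 0]),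
  ([2, 9, 11, 20], [1, 0, -1, 0, 0, 0, -1, 0, 0, 1]),
  ([2, 16, 5, 13], [1, 0, 0, -1, 0, -1, 0, 1, 0, 0]),
  ([2, 13, 19, 20], [1, 0, 0, 0, 0, 0, 0, 1, 1, 1]),
  ([2, 14, 21, 5], [1, 1, 1, 0, 0, -1, 0, 0, 0, 0]),
  ([2, 14, 15, 23], [1, 1, 0, 0, 1, 0, 0, 0, -1, 0]),
  ([10, 16, 3, 7], [-1, 0, 0, -1, -1, 0, 1, 0, 0, 0]),
  ([9, 16, 3, 20], [0, 0, -1, -1, -1, 0, 0, 0, 0, 1]),
  ([3, 5, 11, 17], [0, 0, 0, 0, -1, -1, -1, -1, 0, 0]),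
  ([14, 3, 17, 20], [0, 1, 0, 0, -1, 0, 0, -1, 0, 1]),
  ([21, 3, 5, 19], [0, 0, 1, 0, -1, -1, 0, 0, 1, 0]),
  ([10, 22, 3, 19], [-1, -1, 0, 0, -1, 0, 0, 0, 1, 0]),
  ([10, 21, 7, 4], [-1, 0, 1, 0, 0, 0, 1, 0, 0, -1]),
  ([21, 8, 15, 4], [0, 0, 1, 1, 1, 0, 0, 0, 0, -1]),
  ([22, 5, 11, 4], [0, -1, 0, 0, 0, -1, -1, 0, 0, -1]),
  ([22, 15, 13, 4], [0, -1, 0, 0, 1, 0, 0, 1, 0, -1]),
  ([16, 5, 23, 4], [0, 0, 0, -1, 0, -1, 0, 0, -1, -1]),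
  ([10, 17, 23, 4], [-1, 0, 0, 0, 0, 0, 0, -1, -1, -1]),
  ([21, 7, 13, 19], [0, 0, 1, 0, 0, 0, 1, 1, 1, 0]),
  ([14, 16, 7, 23], [0, 1, 0, -1, 0, 0, 1, 0, -1, 0]),
  ([14, 21, 8, 17], [0, 1, 1, 1, 0, 0, 0, -1, 0, 0]),
  ([22, 8, 11, 19], [0, -1, 0, 1, 0, 0, -1, 0, 1, 0]),
  ([22, 9, 16, 13], [0, -1, -1, -1, 0, 0, 0, 1, 0, 0]),
  ([9, 11, 17, 23], [0, 0, -1, 0, 0, 0, -1, -1, -1, 0]),
  ([1, 7, 13, 19, 20], [0, 0, 0, 0, 0, 1, 1, 1, 1, 1]),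
  ([14, 15, 1, 7, 23], [0, 1, 0, 0, 1, 1, 1, 0, -1, 0]),
  ([14, 8, 1, 17, 20], [0, 1, 0, 1, 0, 1, 0, -1, 0, 1]),
  ([10, 22, 8, 1, 19], [-1, -1, 0, 1, 0, 1, 0, 0, 1, 0]),
  ([22, 9, 15, 1, 13], [0, -1, -1, 0, 1, 1, 0, 1, 0, 0]),
  ([10, 9, 1, 17, 23], [-1, 0, -1, 0, 0, 1, 0, -1, -1, 0]),
  ([2, 8, 11, 19, 20], [1, 0, 0, 1, 0, 0, -1, 0, 1, 1]),
  ([2, 9, 15, 11, 23], [1, 0, -1, 0, 1, 0, -1, 0, -1, 0]),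
  ([2, 9, 16, 13, 20], [1, 0, -1, -1, 0, 0, 0, 1, 0, 1]),
  ([2, 21, 5, 13, 19], [1, 0, 1, 0, 0, -1, 0, 1, 1, 0]),
  ([2, 14, 21, 8, 15], [1, 1, 1, 1, 1, 0, 0, 0, 0, 0]),
  ([2, 14, 16, 5, 23], [1, 1, 0, -1, 0, -1, 0, 0, -1, 0]),
  ([14, 16, 3, 7, 20], [0, 1, 0, -1, -1, 0, 1, 0, 0, 1]),
  ([10, 22, 9, 16, 3], [-1, -1, -1, -1, -1, 0, 0, 0, 0, 0]),
  ([9, 3, 11, 17, 20], [0, 0, -1, 0, -1, 0, -1, -1, 0, 1]),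
  ([14, 21, 3, 5, 17], [0, 1, 1, 0, -1, -1, 0, -1, 0, 0]),
  ([10, 21, 3, 7, 19], [-1, 0, 1, 0, -1, 0, 1, 0, 1, 0]),
  ([22, 3, 5, 11, 19], [0, -1, 0, 0, -1, -1, -1, 0, 1, 0]),
  ([21, 15, 7, 13, 4], [0, 0, 1, 0, 1, 0, 1, 1, 0, -1]),
  ([10, 21, 8, 17, 4], [-1, 0, 1, 1, 0, 0, 0, -1, 0, -1]),
  ([22, 8, 15, 11, 4], [0, -1, 0, 1, 1, 0, -1, 0, 0, -1]),
  ([22, 16, 5, 13, 4], [0, -1, 0, -1, 0, -1, 0, 1, 0, -1]),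
  ([10, 16, 7, 23, 4], [-1, 0, 0, -1, 0, 0, 1, 0, -1, -1]),
  ([5, 11, 17, 23, 4], [0, 0, 0, 0, 0, -1, -1, -1, -1, -1])]

/-- the directed cycles of `K_5` as vectors indexed by the base edges -/
def cyc : List (Fin 10 → ℤ) := cycRaw.map fun l j => l.2.getD j.val 0

theorem cyc_vals : ∀ c ∈ cyc, ∀ j, c j = 0 ∨ c j = 1 ∨ c j = -1 := by decide +kernel

theorem cyc_ne : ∀ c ∈ cyc, ∃ j, c j ≠ 0 := by decide +kernel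

theorem inc_low : ∀ j : Fin 10, ∀ u : Fin 5,
    (∑ i : Fin 3, if act j i then inc j i (u.castLE (by decide)) else 0) = binc j u := by
  decide +kernel

theorem inc_high : ∀ j : Fin 10, ∀ v : Fin 15, 5 ≤ v.val →
    (∑ i : Fin 3, if act j i then inc j i v else 0) = 0 := by
  decide +kernel

theorem inc_dead : ∀ j : Fin 10, ∀ i : Fin 3, ∀ v : Fin 15, act j i = false → inc j i v = 0 := by
  decide +kernel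

theorem cyc_bcirc : ∀ c ∈ cyc, ∀ u : Fin 5, ∑ j : Fin 10, c j * binc j u = 0 := by
  decide +kernel

theorem cyc_arcs : ∀ l ∈ cycRaw, ∀ j : Fin 10,
    (l.2.getD j.val 0 = 1 → 5 * (bs j).val + (bt j).val ∈ l.1) ∧
    (l.2.getD j.val 0 = -1 → 5 * (bt j).val + (bs j).val ∈ l.1) := by decide +kernel

/-- code of an arc -/
def arcCode (x y : Fin 5) : ℕ := 5 * x.val + y.val

/-- the arc with code `k` is used by the walk -/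
def inWalk (a0 a1 a2 a3 a4 k : ℕ) : Bool :=
  Nat.beq k a0 || Nat.beq k a1 || Nat.beq k a2 || Nat.beq k a3 || Nat.beq k a4

/-- the walk contains a directed cycle -/
def hasCycle (a0 a1 a2 a3 a4 : ℕ) : Bool :=
  cycRaw.any fun l => l.1.all fun k => inWalk a0 a1 a2 a3 a4 k

theorem walk_cycle : ∀ u0 u1 u2 u3 u4 u5 : Fin 5,
    (u0 == u1 || u1 == u2 || u2 == u3 || u3 == u4 || u4 == u5 ||
      u0 == u2 || u1 == u3 || u2 == u4 || u3 == u5 ||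
      hasCycle (arcCode u0 u1) (arcCode u1 u2) (arcCode u2 u3) (arcCode u3 u4) (arcCode u4 u5))
        = true := by
  decide +kernel

end Pool.Agent.SEP
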