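import Mathlib

namespace Pool.Agent.SEP

open scoped Pointwise

/-- The symmetric edge polytope of `G`: the convex hull of the vectors `e_i - e_j` over all
ordered pairs `(i, j)` of adjacent vertices. -/
def symEdgePolytope {V : Type} [DecidableEq V] (G : SimpleGraph V) : Set (V → ℝ) :=
  convexHull ℝ {x | ∃ i j, G.Adj i j ∧ x = Pi.single i 1 - Pi.single j 1}

/-- The number of integer points in the dilate `k • P`. -/
noncomputable def latticeCount {V : Type} (P : Set (V → ℝ)) (k : ℕ) : ℕ :=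
  Set.ncard {x : V → ℤ | (fun v => (x v : ℝ)) ∈ (k : ℝ) • P}

/-- The dimension of `P` (of its affine hull). -/
noncomputable def polyDim {V : Type} (P : Set (V → ℝ)) : ℕ :=
  Module.finrank ℝ (vectorSpan ℝ P)

/-- `h` is the `h^*`-polynomial of `P`, that is
`∑_k |k P ∩ ℤ^V| t^k = h(t) / (1 - t)^(dim P + 1)`. -/
def IsHStar {V : Type} (P : Set (V → ℝ)) (h : Polynomial ℤ) : Prop :=
  PowerSeries.mk (fun k => (latticeCount P k : ℤ)) * (1 - PowerSeries.X) ^ (polyDim P + 1)
    = (h : PowerSeries ℤ)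

/-- `g` lists the coefficients of the `γ`-polynomial of `p` with respect to the centre `d / 2`:
`p = ∑_{j ≤ d/2} g_j t^j (1 + t)^(d - 2 j)`, and `g_j = 0` for `j > d / 2`. -/
def IsGamma (d : ℕ) (p : Polynomial ℤ) (g : ℕ → ℤ) : Prop :=
  p = ∑ j ∈ Finset.range (d / 2 + 1),
      Polynomial.C (g j) * Polynomial.X ^ j * (1 + Polynomial.X) ^ (d - 2 * j) ∧
    ∀ j, d / 2 < j → g j = 0

/-- `g` lists the coefficients of the `γ`-polynomial of the symmetric edge polytope of `G`
(a graph on `|V|` vertices, the centre of symmetry being `(|V| - 1) / 2`). -/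
def IsGraphGamma {V : Type} [Fintype V] [DecidableEq V] (G : SimpleGraph V) (g : ℕ → ℤ) : Prop :=
  ∃ h : Polynomial ℤ, IsHStar (symEdgePolytope G) h ∧ IsGamma (Fintype.card V - 1) h g

/-- `G` has at least `3` vertices, is connected, and stays connected after deleting any one
vertex. -/
def TwoConnected {V : Type} [Fintype V] (G : SimpleGraph V) : Prop :=
  3 ≤ Fintype.card V ∧ G.Connected ∧ ∀ v : V, (G.induce {v}ᶜ).Connected

/-- `z` lists the coefficients of `Z_G(t)`, the sum over all edges `e` of `G` of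
`γ_{P_G}(t) - γ_{P_{G \ e}}(t)`. -/
def IsZ {V : Type} [Fintype V] [DecidableEq V] (G : SimpleGraph V) (z : ℕ → ℤ) : Prop :=
  ∃ (g : ℕ → ℤ) (g' : Sym2 V → ℕ → ℤ), IsGraphGamma G g ∧
    (∀ e ∈ G.edgeSet, IsGraphGamma (G.deleteEdges {e}) (g' e)) ∧
    ∀ j, z j = ∑ᶠ e ∈ G.edgeSet, (g j - g' e j)

end Pool.Agent.SEP
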