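import Pool.Agent.SEP.Graph
import Pool.Agent.SEP.CompG
import Pool.Agent.SEP.CompC
import Pool.Agent.SEP.CompE

namespace Pool.Agent.SEP

open Polynomial

/-- the polynomial determined by the numbers of faces -/
noncomputable def hPoly (L : List ℕ) : ℤ[X] :=
  ∑ m ∈ Finset.range (14 + 1), C ((L.getD m 0 : ℕ) : ℤ) * X ^ m * (1 - X) ^ (14 - m)

theorem isHStar_of (al : Fin 10 → Fin 3 → Bool) (H : SimpleGraph (Fin 15)) (hH : Describes al H)
    (hc : H.Connected) (L : List ℕ) (hL : L.length = 15) (h : ∀ m < 31, fm al m = L.getD m 0) :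
    IsHStar (symEdgePolytope H) (hPoly L) := by
  unfold IsHStar
  rw [polyDim_eq H hc, Fintype.card_fin]
  apply series_eq (fun m => L.getD m 0) 14
  intro k
  rw [lattice_fm al H hH hc k]
  have h1 : ∀ m ∈ Finset.range 31, fm al m * Nat.choose k m = L.getD m 0 * Nat.choose k m := by
    intro m hm
    rw [h m (Finset.mem_range.1 hm)]
  rw [Finset.sum_congr rfl h1]
  have h2 : Finset.range (14 + 1) ⊆ Finset.range 31 := by
    intro m hm
    rw [Finset.mem_range] at *
    omega
  symm
  apply Finset.sum_subset h2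
  intro m _ hm2
  rw [Finset.mem_range] at hm2
  rw [List.getD_eq_default _ _ (by omega), zero_mul]

/-- coefficients of the `γ`-polynomial of the graph -/
def gG (j : ℕ) : ℤ := ([1, 12, 96, 430, 1140, 1722, 1144, 72] : List ℤ).getD j 0

/-- coefficients after the deletion of an edge of the inner five-cycle -/
def gC (j : ℕ) : ℤ := ([1, 10, 70, 320, 908, 1424, 1074, 324] : List ℤ).getD j 0

/-- coefficients after the deletion of an edge of the outer cycle -/
def gE (j : ℕ) : ℤ := ([1, 10, 70, 248, 476, 452, 120, 0] : List ℤ).getD j 0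

theorem idG : hPoly fG = ∑ j ∈ Finset.range (14 / 2 + 1), C (gG j) * X ^ j * (1 + X) ^ (14 - 2 * j) := by
  unfold hPoly fG gG
  simp only [Finset.sum_range_succ, Finset.sum_range_zero, List.getD_cons_zero,
    List.getD_cons_succ, Nat.reduceDiv, Nat.reduceAdd, Nat.reduceMul, Nat.reduceSub]
  simp
  ring

theorem idC : hPoly fC = ∑ j ∈ Finset.range (14 / 2 + 1), C (gC j) * X ^ j * (1 + X) ^ (14 - 2 * j) := by
  unfold hPoly fC gC
  simp only [Finset.sum_range_succ, Finset.sum_range_zero, List.getD_cons_zero,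
    List.getD_cons_succ, Nat.reduceDiv, Nat.reduceAdd, Nat.reduceMul, Nat.reduceSub]
  simp
  ring

theorem idE : hPoly fE = ∑ j ∈ Finset.range (14 / 2 + 1), C (gE j) * X ^ j * (1 + X) ^ (14 - 2 * j) := by
  unfold hPoly fE gE
  simp only [Finset.sum_range_succ, Finset.sum_range_zero, List.getD_cons_zero,
    List.getD_cons_succ, Nat.reduceDiv, Nat.reduceAdd, Nat.reduceMul, Nat.reduceSub]
  simp
  ring

theorem gamma_G : IsGraphGamma GG gG :=
  ⟨hPoly fG, isHStar_of act GG describes_GG GG_connected fG rfl fmG, idG, fun j hj => by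
    unfold gG
    exact List.getD_eq_default _ _ (by simp only [Fintype.card_fin] at hj; simp; omega)⟩

theorem alC_eq : alD (repj 0) (repi 0) = alC := by
  have : ∀ j i, alD (repj 0) (repi 0) j i = alC j i := by decide +kernel
  funext j i; exact this j i

theorem alE_eq (r : Fin 3) : alD (repj r.succ) (repi r.succ) = alE r := by
  have : ∀ r : Fin 3, ∀ j i, alD (repj r.succ) (repi r.succ) j i = alE r j i := by decide +kernel
  funext j i; exact this r j i

theorem gamma_C : IsGraphGamma (GD (repj 0) (repi 0)) gC := by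
  refine ⟨hPoly fC, isHStar_of alC _ ?_ (GD_connected 0) fC rfl fmC, idC, fun j hj => ?_⟩
  · rw [← alC_eq]
    exact describes_GD _ _ (act_rep 0)
  · unfold gC
    exact List.getD_eq_default _ _ (by simp only [Fintype.card_fin] at hj; simp; omega)

theorem gamma_E (r : Fin 3) : IsGraphGamma (GD (repj r.succ) (repi r.succ)) gE := by
  refine ⟨hPoly fE, isHStar_of (alE r) _ ?_ (GD_connected r.succ) fE rfl (fmE r), idE,
    fun j hj => ?_⟩
  · rw [← alE_eq]
    exact describes_GD _ _ (act_rep r.succ)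
  · unfold gE
    exact List.getD_eq_default _ _ (by simp only [Fintype.card_fin] at hj; simp; omega)

/-- coefficients after the deletion of the unit edge `(j, i)` -/
def gJ (j : Fin 10) : ℕ → ℤ := if j.val < 5 then gC else gE

theorem gamma_del (j : Fin 10) (i : Fin 3) (h : act j i = true) :
    IsGraphGamma (GD j i) (gJ j) := by
  apply gamma_rep j i h
  unfold gJ repe
  by_cases h5 : j.val < 5
  · rw [if_pos h5, if_pos h5]
    exact gamma_C
  · rw [if_neg h5, if_neg h5]
    have : ∀ i : Fin 3, ([1, 2, 3] : List (Fin 4)).getD i.val 0 = i.succ := by decide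
    rw [this i]
    exact gamma_E i

open Classical in
/-- the `γ`-coefficients of the graphs obtained by deleting an edge -/
noncomputable def gD (e : Sym2 (Fin 15)) : ℕ → ℤ :=
  if ∃ j i, j.val < 5 ∧ act j i = true ∧ e = s(sV j i, tV j i) then gC else gE

theorem gD_eq (j : Fin 10) (i : Fin 3) (h : act j i = true) : gD s(sV j i, tV j i) = gJ j := by
  unfold gD gJ
  by_cases h5 : j.val < 5
  · rw [if_pos h5, if_pos ⟨j, i, h5, h, rfl⟩]
  · rw [if_neg h5, if_neg]
    rintro ⟨j', i', h1, h2, h3⟩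
    rw [Sym2.eq_iff] at h3
    obtain ⟨rfl, rfl⟩ := edge_inj j i j' i' h h2 h3
    exact h5 h1

/-- the edges of the graph -/
noncomputable def EE : Finset (Sym2 (Fin 15)) :=
  ((Finset.univ : Finset (Fin 10 × Fin 3)).filter fun e => act e.1 e.2 = true).image
    fun e => s(sV e.1 e.2, tV e.1 e.2)

theorem edgeSet_eq : GG.edgeSet = (EE : Set (Sym2 (Fin 15))) := by
  ext e
  induction e with
  | _ a b =>
    rw [SimpleGraph.mem_edgeSet]
    unfold EE
    simp only [Finset.coe_image, Finset.coe_filter, Finset.mem_univ, true_and, Set.mem_image,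
      Prod.exists, Set.mem_ofPred_eq]
    constructor
    · rintro ⟨j, i, h1, h2⟩
      exact ⟨j, i, h1, by rw [Sym2.eq_iff]; exact h2⟩
    · rintro ⟨j, i, h1, h2⟩
      exact ⟨j, i, h1, by rwa [Sym2.eq_iff] at h2⟩

theorem sum_edges : ∑ᶠ e ∈ GG.edgeSet, (gG 7 - gD e 7) = -180 := by
  rw [edgeSet_eq, finsum_mem_coe_finset]
  unfold EE
  rw [Finset.sum_image]
  · have h : ∀ e ∈ (Finset.univ : Finset (Fin 10 × Fin 3)).filter (fun e => act e.1 e.2 = true),
        gG 7 - gD s(sV e.1 e.2, tV e.1 e.2) 7 = gG 7 - gJ e.1 7 := by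
      intro e he
      rw [gD_eq e.1 e.2 (Finset.mem_filter.1 he).2]
    rw [Finset.sum_congr rfl h]
    decide +kernel
  · intro a ha b hb hab
    simp only [Finset.coe_filter, Finset.mem_univ, true_and, Set.mem_ofPred_eq] at ha hb
    simp only [Sym2.eq_iff] at hab
    obtain ⟨h1, h2⟩ := edge_inj _ _ _ _ ha hb hab
    exact Prod.ext h1 h2

theorem main : ∃ z : ℕ → ℤ, IsZ GG z ∧ z 7 = -180 := by
  refine ⟨fun j => ∑ᶠ e ∈ GG.edgeSet, (gG j - gD e j), ⟨gG, gD, gamma_G, ?_, fun j => rfl⟩,
    sum_edges⟩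
  intro e he
  rw [edgeSet_eq] at he
  unfold EE at he
  simp only [Finset.coe_image, Finset.coe_filter, Finset.mem_univ, true_and, Set.mem_image,
      Prod.exists, Set.mem_ofPred_eq] at he
  obtain ⟨j, i, h1, rfl⟩ := he
  rw [gD_eq j i h1]
  exact gamma_del j i h1

end Pool.Agent.SEP
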