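import Pool.Agent.SEP.Defs

namespace Pool.Agent.SEP

open scoped Pointwise

variable {V ι : Type} [Fintype V] [DecidableEq V] [Fintype ι]

/-- incidence number of the arc `e` at the vertex `v` -/
def incid (s t : ι → V) (e : ι) (v : V) : ℤ :=
  (if t e = v then 1 else 0) - (if s e = v then 1 else 0)

theorem gen_mem {H : SimpleGraph V} {i j : V} (h : H.Adj i j) :
    (Pi.single i 1 - Pi.single j 1 : V → ℝ) ∈ symEdgePolytope H :=
  subset_convexHull ℝ _ ⟨i, j, h, rfl⟩

theorem convex_P (H : SimpleGraph V) : Convex ℝ (symEdgePolytope H) := convex_convexHull ℝ _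

theorem zero_mem_P {H : SimpleGraph V} (hne : ∃ a b, H.Adj a b) :
    (0 : V → ℝ) ∈ symEdgePolytope H := by
  obtain ⟨a, b, hab⟩ := hne
  have h := (convex_P H) (gen_mem hab) (gen_mem hab.symm) (a := (1/2 : ℝ)) (b := (1/2 : ℝ))
    (by norm_num) (by norm_num) (by norm_num)
  have e : (1/2 : ℝ) • (Pi.single a 1 - Pi.single b 1 : V → ℝ)
      + (1/2 : ℝ) • (Pi.single b 1 - Pi.single a 1 : V → ℝ) = 0 := by
    ext v; simp; ring
  rwa [e] at h

theorem mem_smul_iff (H : SimpleGraph V) (s t : ι → V) (dead : ι → Prop)
    (h1 : ∀ e, ¬ dead e → H.Adj (s e) (t e))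
    (h2 : ∀ a b, H.Adj a b → ∃ e, ¬ dead e ∧ ((s e = a ∧ t e = b) ∨ (s e = b ∧ t e = a)))
    (hne : ∃ a b, H.Adj a b) (k : ℝ) (hk : 0 ≤ k) (x : V → ℝ) :
    x ∈ k • symEdgePolytope H ↔ ∃ g : ι → ℝ, (∀ e, dead e → g e = 0) ∧
      (∀ v, ∑ e, g e * (incid s t e v : ℝ) = x v) ∧ ∑ e, |g e| ≤ k := by
  have h0 := zero_mem_P hne
  constructor
  · intro hx
    obtain ⟨y, hy, rfl⟩ := Set.mem_smul_set.1 hx
    have hsub : symEdgePolytope H ⊆ {y : V → ℝ | ∃ g : ι → ℝ, (∀ e, dead e → g e = 0) ∧
        (∀ v, ∑ e, g e * (incid s t e v : ℝ) = y v) ∧ ∑ e, |g e| ≤ 1} := by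
      apply convexHull_min
      · rintro z ⟨i, j, hij, rfl⟩
        classical
        obtain ⟨e, he, hst⟩ := h2 i j hij
        rcases hst with ⟨hs, ht⟩ | ⟨hs, ht⟩
        · refine ⟨Pi.single e (-1), ?_, ?_, ?_⟩
          · intro e' he'
            have : e' ≠ e := by rintro rfl; exact he he'
            simp [this]
          · intro v
            rw [Finset.sum_eq_single e]
            · simp only [Pi.single_eq_same, incid, hs, ht, Pi.sub_apply, Pi.single_apply]
              by_cases h1 : i = v <;> by_cases h2 : j = v <;> simp [h1, h2, eq_comm] <;>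
              simp_all [eq_comm]
            · intro b _ hb; simp [hb]
            · simp
          · rw [Finset.sum_eq_single e]
            · simp
            · intro b _ hb; simp [hb]
            · simp
        · refine ⟨Pi.single e 1, ?_, ?_, ?_⟩
          · intro e' he'
            have : e' ≠ e := by rintro rfl; exact he he'
            simp [this]
          · intro v
            rw [Finset.sum_eq_single e]
            · simp only [Pi.single_eq_same, incid, hs, ht, Pi.sub_apply, Pi.single_apply]
              by_cases h1 : i = v <;> by_cases h2 : j = v <;> simp [h1, h2, eq_comm] <;>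
              simp_all [eq_comm]
            · intro b _ hb; simp [hb]
            · simp
          · rw [Finset.sum_eq_single e]
            · simp
            · intro b _ hb; simp [hb]
            · simp
      · rintro y1 ⟨g1, a1, b1, c1⟩ y2 ⟨g2, a2, b2, c2⟩ p q hp hq hpq
        refine ⟨fun e => p * g1 e + q * g2 e, ?_, ?_, ?_⟩
        · intro e he; simp [a1 e he, a2 e he]
        · intro v
          simp only [Pi.add_apply, Pi.smul_apply, smul_eq_mul, ← b1 v, ← b2 v, Finset.mul_sum,
            ← Finset.sum_add_distrib]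
          exact Finset.sum_congr rfl fun e _ => by ring
        · calc ∑ e, |p * g1 e + q * g2 e| ≤ ∑ e, (p * |g1 e| + q * |g2 e|) := by
                apply Finset.sum_le_sum
                intro e _
                calc |p * g1 e + q * g2 e| ≤ |p * g1 e| + |q * g2 e| := abs_add_le _ _
                  _ = p * |g1 e| + q * |g2 e| := by
                    rw [abs_mul, abs_mul, abs_of_nonneg hp, abs_of_nonneg hq]
            _ = p * ∑ e, |g1 e| + q * ∑ e, |g2 e| := by
                rw [Finset.sum_add_distrib, Finset.mul_sum, Finset.mul_sum]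
            _ ≤ p * 1 + q * 1 := by gcongr
            _ = 1 := by linarith
    obtain ⟨g, a, b, c⟩ := hsub hy
    refine ⟨fun e => k * g e, ?_, ?_, ?_⟩
    · intro e he; simp [a e he]
    · intro v
      simp only [Pi.smul_apply, smul_eq_mul, ← b v, Finset.mul_sum]
      exact Finset.sum_congr rfl fun e _ => by ring
    · calc ∑ e, |k * g e| = k * ∑ e, |g e| := by
            rw [Finset.mul_sum]
            exact Finset.sum_congr rfl fun e _ => by rw [abs_mul, abs_of_nonneg hk]
        _ ≤ k * 1 := by gcongr
        _ = k := by ring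
  · rintro ⟨g, ha, hb, hc⟩
    have key : ∀ F : Finset ι, (∑ e ∈ F, g e • (Pi.single (t e) 1 - Pi.single (s e) 1 : V → ℝ)) ∈
        (∑ e ∈ F, |g e|) • symEdgePolytope H := by
      classical
      intro F
      induction F using Finset.induction_on with
      | empty => simp only [Finset.sum_empty]; exact ⟨0, h0, by simp⟩
      | insert a F haF ih =>
        rw [Finset.sum_insert haF, Finset.sum_insert haF,
          (convex_P H).add_smul (abs_nonneg _) (Finset.sum_nonneg fun _ _ => abs_nonneg _)]
        refine Set.add_mem_add ?_ ih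
        by_cases hd : dead a
        · rw [ha a hd]; simp only [zero_smul, abs_zero]
          exact ⟨0, h0, by simp⟩
        · rcases le_or_gt 0 (g a) with h | h
          · rw [abs_of_nonneg h]
            exact Set.smul_mem_smul_set (gen_mem (h1 a hd).symm)
          · rw [abs_of_neg h]
            refine ⟨Pi.single (s a) 1 - Pi.single (t a) 1, gen_mem (h1 a hd), ?_⟩
            simp only [smul_sub, neg_smul]
            abel
    have hx : x = (∑ e, g e • (Pi.single (t e) 1 - Pi.single (s e) 1 : V → ℝ)) + 0 := by
      ext v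
      rw [← hb v]
      simp only [add_zero, Finset.sum_apply, Pi.smul_apply, Pi.sub_apply, smul_eq_mul, incid,
        Pi.single_apply]
      refine Finset.sum_congr rfl fun e _ => ?_
      push_cast
      simp only [eq_comm]
    rw [hx]
    have hk2 : k = (∑ e, |g e|) + (k - ∑ e, |g e|) := by ring
    rw [hk2, (convex_P H).add_smul (Finset.sum_nonneg fun _ _ => abs_nonneg _) (by linarith)]
    refine Set.add_mem_add (key _) ⟨0, h0, by simp⟩

end Pool.Agent.SEP
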