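import Pool.Agent.SEP.Flow

namespace Pool.Agent.SEP

open scoped Pointwise

section dim

variable {V : Type} [Fintype V] [DecidableEq V]

/-- sum of the coordinates -/
noncomputable def sumF (V : Type) [Fintype V] : (V → ℝ) →ₗ[ℝ] ℝ where
  toFun x := ∑ v, x v
  map_add' x y := by simp [Finset.sum_add_distrib]
  map_smul' c x := by simp [Finset.mul_sum]

theorem vectorSpan_P (H : SimpleGraph V) :
    vectorSpan ℝ (symEdgePolytope H) =
      vectorSpan ℝ {x : V → ℝ | ∃ i j, H.Adj i j ∧ x = Pi.single i 1 - Pi.single j 1} := by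
  unfold symEdgePolytope
  rw [← direction_affineSpan, affineSpan_convexHull, direction_affineSpan]

theorem polyDim_eq (H : SimpleGraph V) (hc : H.Connected) :
    polyDim (symEdgePolytope H) = Fintype.card V - 1 := by
  have _hV : Nonempty V := hc.nonempty
  obtain ⟨r⟩ := hc.nonempty
  have hspan : vectorSpan ℝ (symEdgePolytope H) = LinearMap.ker (sumF V) := by
    rw [vectorSpan_P]
    apply le_antisymm
    · unfold vectorSpan
      rw [Submodule.span_le]
      rintro _ ⟨x, ⟨i, j, -, rfl⟩, y, ⟨k, l, -, rfl⟩, rfl⟩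
      simp [sumF, vsub_eq_sub, Finset.sum_sub_distrib]
    · have hadj : ∀ i j, H.Adj i j → (Pi.single i 1 - Pi.single j 1 : V → ℝ) ∈
          vectorSpan ℝ {x : V → ℝ | ∃ i j, H.Adj i j ∧ x = Pi.single i 1 - Pi.single j 1} := by
        intro i j hij
        have h1 : ((Pi.single i 1 - Pi.single j 1 : V → ℝ) -ᵥ (Pi.single j 1 - Pi.single i 1 : V → ℝ)) ∈
            vectorSpan ℝ {x : V → ℝ | ∃ i j, H.Adj i j ∧ x = Pi.single i 1 - Pi.single j 1} :=
          vsub_mem_vectorSpan ℝ ⟨i, j, hij, rfl⟩ ⟨j, i, hij.symm, rfl⟩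
        have h2 := Submodule.smul_mem _ (1/2 : ℝ) h1
        have e : (1/2 : ℝ) • ((Pi.single i 1 - Pi.single j 1 : V → ℝ) -ᵥ
            (Pi.single j 1 - Pi.single i 1 : V → ℝ)) = Pi.single i 1 - Pi.single j 1 := by
          ext v; simp [vsub_eq_sub]; ring
        rwa [e] at h2
      have hreach : ∀ i j, H.Reachable i j → (Pi.single i 1 - Pi.single j 1 : V → ℝ) ∈
          vectorSpan ℝ {x : V → ℝ | ∃ i j, H.Adj i j ∧ x = Pi.single i 1 - Pi.single j 1} := by
        rintro i j ⟨p⟩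
        induction p with
        | nil => simp only [sub_self]; exact Submodule.zero_mem _
        | cons h _ ih =>
          have := Submodule.add_mem _ (hadj _ _ h) ih
          rwa [sub_add_sub_cancel] at this
      intro x hx
      have hx' : ∑ v, x v = 0 := hx
      have h : x = ∑ v, x v • (Pi.single v 1 - Pi.single r 1 : V → ℝ) := by
        funext u
        simp only [Finset.sum_apply, Pi.smul_apply, Pi.sub_apply, smul_eq_mul, mul_sub,
          Finset.sum_sub_distrib, ← Finset.sum_mul, hx', zero_mul, sub_zero]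
        simp [Pi.single_apply]
      rw [h]
      exact Submodule.sum_mem _ fun v _ => Submodule.smul_mem _ _ (hreach v r (hc.preconnected v r))
  unfold polyDim
  rw [hspan]
  have hne : (sumF V : Module.Dual ℝ (V → ℝ)) ≠ 0 := by
    intro h
    have := LinearMap.congr_fun h (Pi.single r 1)
    simp [sumF] at this
  have := Module.Dual.finrank_ker_add_one_of_ne_zero hne
  rw [Module.finrank_fintype_fun_eq_card] at this
  omega

end dim

section iso

variable {V : Type} [Fintype V] [DecidableEq V]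

theorem comp_single (π : Equiv.Perm V) (i : V) :
    (Pi.single i (1 : ℝ) : V → ℝ) ∘ π.symm = Pi.single (π i) 1 := by
  funext v
  simp only [Function.comp_apply, Pi.single_apply]
  have : (π.symm v = i) ↔ (v = π i) := Equiv.symm_apply_eq π
  simp [this]

theorem P_iso (H1 H2 : SimpleGraph V) (π : Equiv.Perm V)
    (h : ∀ x y, H2.Adj (π x) (π y) ↔ H1.Adj x y) :
    symEdgePolytope H2 = (LinearMap.funLeft ℝ ℝ π.symm) '' symEdgePolytope H1 := by
  unfold symEdgePolytope
  rw [LinearMap.image_convexHull]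
  congr 1
  ext x
  simp only [Set.mem_ofPred_eq, Set.mem_image]
  constructor
  · rintro ⟨i, j, hij, rfl⟩
    refine ⟨Pi.single (π.symm i) 1 - Pi.single (π.symm j) 1,
      ⟨π.symm i, π.symm j, (h _ _).1 (by simpa using hij), rfl⟩, ?_⟩
    rw [map_sub]
    change (Pi.single (π.symm i) (1 : ℝ) : V → ℝ) ∘ π.symm - (Pi.single (π.symm j) (1 : ℝ) : V → ℝ) ∘ π.symm = _
    rw [comp_single, comp_single, Equiv.apply_symm_apply, Equiv.apply_symm_apply]
  · rintro ⟨y, ⟨i, j, hij, rfl⟩, rfl⟩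
    refine ⟨π i, π j, (h _ _).2 hij, ?_⟩
    rw [map_sub]
    change (Pi.single i (1 : ℝ) : V → ℝ) ∘ π.symm - (Pi.single j (1 : ℝ) : V → ℝ) ∘ π.symm = _
    rw [comp_single, comp_single]

theorem latticeCount_iso (H1 H2 : SimpleGraph V) (π : Equiv.Perm V)
    (h : ∀ x y, H2.Adj (π x) (π y) ↔ H1.Adj x y) (k : ℕ) :
    latticeCount (symEdgePolytope H2) k = latticeCount (symEdgePolytope H1) k := by
  unfold latticeCount
  have himg : {x : V → ℤ | (fun v => (x v : ℝ)) ∈ (k : ℝ) • symEdgePolytope H2} =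
      (fun x : V → ℤ => x ∘ π.symm) ''
        {x : V → ℤ | (fun v => (x v : ℝ)) ∈ (k : ℝ) • symEdgePolytope H1} := by
    ext x
    simp only [Set.mem_ofPred_eq, Set.mem_image]
    rw [P_iso H1 H2 π h]
    constructor
    · intro hx
      obtain ⟨y, ⟨z, hz, rfl⟩, hy⟩ := Set.mem_smul_set.1 hx
      refine ⟨x ∘ π, ?_, ?_⟩
      · rw [Set.mem_smul_set]
        refine ⟨z, hz, ?_⟩
        funext v
        have := congrFun hy (π v)
        simpa [LinearMap.funLeft] using this
      · funext v; simp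
    · rintro ⟨y, hy, rfl⟩
      obtain ⟨z, hz, hzy⟩ := Set.mem_smul_set.1 hy
      rw [Set.mem_smul_set]
      refine ⟨LinearMap.funLeft ℝ ℝ π.symm z, ⟨z, hz, rfl⟩, ?_⟩
      funext v
      have := congrFun hzy (π.symm v)
      simpa [LinearMap.funLeft] using this
  rw [himg]
  apply Set.ncard_image_of_injective
  intro x y hxy
  funext v
  have := congrFun hxy (π v)
  simpa using this

theorem polyDim_iso (H1 H2 : SimpleGraph V) (π : Equiv.Perm V)
    (h : ∀ x y, H2.Adj (π x) (π y) ↔ H1.Adj x y) :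
    polyDim (symEdgePolytope H2) = polyDim (symEdgePolytope H1) := by
  unfold polyDim
  rw [P_iso H1 H2 π h]
  have e : (LinearMap.funLeft ℝ ℝ π.symm : (V → ℝ) →ₗ[ℝ] (V → ℝ)) =
      ((LinearEquiv.funCongrLeft ℝ ℝ π.symm : (V → ℝ) ≃ₗ[ℝ] (V → ℝ)) : (V → ℝ) →ₗ[ℝ] (V → ℝ)) := rfl
  have h2 := (LinearMap.funLeft ℝ ℝ π.symm : (V → ℝ) →ₗ[ℝ] (V → ℝ)).toAffineMap.vectorSpan_image_eq_submodule_map
    (s := symEdgePolytope H1)
  rw [LinearMap.toAffineMap_linear, LinearMap.coe_toAffineMap] at h2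
  rw [← h2, e]
  exact LinearEquiv.finrank_map_eq _ _

theorem gamma_iso (H1 H2 : SimpleGraph V) (π : Equiv.Perm V)
    (h : ∀ x y, H2.Adj (π x) (π y) ↔ H1.Adj x y) (g : ℕ → ℤ) (hg : IsGraphGamma H1 g) :
    IsGraphGamma H2 g := by
  obtain ⟨p, hp, hpg⟩ := hg
  refine ⟨p, ?_, hpg⟩
  unfold IsHStar at *
  rw [polyDim_iso H1 H2 π h]
  simp only [latticeCount_iso H1 H2 π h]
  exact hp

end iso

end Pool.Agent.SEP
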