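import Pool.Agent.SEP.Main
import Pool.Agent.SEP.Geom

namespace Pool.Agent.SEP

/-- The graph: `K_5` with the edges of a Hamilton cycle replaced by paths of length three. -/
def GG : SimpleGraph (Fin 15) where
  Adj a b := ∃ j i, act j i = true ∧ ((sV j i = a ∧ tV j i = b) ∨ (sV j i = b ∧ tV j i = a))
  symm := ⟨fun _ _ ⟨j, i, h, h'⟩ => ⟨j, i, h, h'.symm⟩⟩
  loopless := ⟨fun a ⟨j, i, h, h'⟩ => by
    have hne : ∀ j i, act j i = true → sV j i ≠ tV j i := by decide +kernel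
    rcases h' with ⟨h1, h2⟩ | ⟨h1, h2⟩ <;> exact hne j i h (h1.trans h2.symm)⟩

/-- neighbours -/
def nbr (a : Fin 15) : List (Fin 15) :=
  ([[2, 3, 5, 14], [3, 4, 6, 7], [0, 4, 8, 9], [0, 1, 10, 11], [1, 2, 12, 13], [0, 6], [1, 5],
    [1, 8], [2, 7], [2, 10], [3, 9], [3, 12], [4, 11], [4, 14], [0, 13]] :
      List (List (Fin 15))).getD a.val []

theorem adj_iff : ∀ a b, GG.Adj a b ↔ b ∈ nbr a := by
  have : ∀ a b, (∃ j i, act j i = true ∧ ((sV j i = a ∧ tV j i = b) ∨ (sV j i = b ∧ tV j i = a)))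
      ↔ b ∈ nbr a := by decide +kernel
  exact this

theorem connected_of_depth {W : Type} (H : SimpleGraph W) (r : W) (d : W → ℕ)
    (h : ∀ w, w ≠ r → ∃ u, H.Adj w u ∧ d u < d w) : H.Connected := by
  have key : ∀ n w, d w = n → H.Reachable w r := by
    intro n
    induction n using Nat.strong_induction_on with
    | _ n ih =>
      intro w hw
      by_cases hr : w = r
      · rw [hr]
      · obtain ⟨u, hu, hlt⟩ := h w hr
        exact hu.reachable.trans (ih (d u) (hw ▸ hlt) u rfl)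
  have _hW : Nonempty W := ⟨r⟩
  exact SimpleGraph.Connected.mk fun a b => (key _ a rfl).trans (key _ b rfl).symm

/-- distances after the deletion of a vertex -/
def dep (v w : Fin 15) : ℕ :=
  (([[0, 0, 2, 1, 1, 2, 1, 1, 2, 3, 2, 2, 2, 2, 3], [0, 0, 1, 1, 2, 1, 2, 3, 2, 2, 2, 2, 3, 2, 1],
    [0, 2, 0, 1, 3, 1, 2, 3, 4, 3, 2, 2, 3, 2, 1], [0, 3, 1, 0, 2, 1, 2, 3, 2, 2, 3, 4, 3, 2, 1],
    [0, 2, 1, 1, 0, 1, 2, 3, 2, 2, 2, 2, 3, 2, 1], [0, 2, 1, 1, 2, 0, 3, 3, 2, 2, 2, 2, 3, 2, 1],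
    [0, 2, 1, 1, 2, 1, 0, 3, 2, 2, 2, 2, 3, 2, 1], [0, 2, 1, 1, 2, 1, 2, 0, 2, 2, 2, 2, 3, 2, 1],
    [0, 2, 1, 1, 2, 1, 2, 3, 0, 2, 2, 2, 3, 2, 1], [0, 2, 1, 1, 2, 1, 2, 3, 2, 0, 2, 2, 3, 2, 1],
    [0, 2, 1, 1, 2, 1, 2, 3, 2, 2, 0, 2, 3, 2, 1], [0, 2, 1, 1, 2, 1, 2, 3, 2, 2, 2, 0, 3, 2, 1],
    [0, 2, 1, 1, 2, 1, 2, 3, 2, 2, 2, 2, 0, 2, 1], [0, 2, 1, 1, 2, 1, 2, 3, 2, 2, 2, 2, 3, 0, 1],
    [0, 2, 1, 1, 2, 1, 2, 3, 2, 2, 2, 2, 3, 3, 0]] : List (List ℕ)).getD v.val []).getD w.val 0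

/-- root after the deletion of a vertex -/
def root (v : Fin 15) : Fin 15 := if v = 0 then 1 else 0

theorem dep_ok : ∀ v w : Fin 15, w ≠ v → w ≠ root v →
    ∃ u ∈ nbr w, u ≠ v ∧ dep v u < dep v w := by decide +kernel

theorem root_ne : ∀ v : Fin 15, root v ≠ v := by decide +kernel

theorem del_connected (v : Fin 15) : (GG.induce {v}ᶜ).Connected := by
  apply connected_of_depth (GG.induce {v}ᶜ) ⟨root v, by simpa using root_ne v⟩
    (fun w => dep v w.1)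
  rintro ⟨w, hw⟩ hne
  have hw' : w ≠ v := by simpa using hw
  have hne' : w ≠ root v := fun h => hne (Subtype.ext h)
  obtain ⟨u, hu, huv, hlt⟩ := dep_ok v w hw' hne'
  refine ⟨⟨u, by simpa using huv⟩, ?_, hlt⟩
  rw [SimpleGraph.comap_adj]
  exact (adj_iff w u).2 hu

/-- distances in the graph without one edge: `0` stands for the base edge `0`, and `r + 1` for
the unit edge `(5, r)` -/
def dep2 (e : Fin 4) (w : Fin 15) : ℕ :=
  (([[0, 2, 4, 1, 3, 1, 2, 3, 4, 3, 2, 2, 3, 2, 1], [0, 2, 1, 1, 2, 4, 3, 3, 2, 2, 2, 2, 3, 2, 1],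
    [0, 2, 1, 1, 2, 1, 3, 3, 2, 2, 2, 2, 3, 2, 1],
    [0, 2, 1, 1, 2, 1, 2, 3, 2, 2, 2, 2, 3, 2, 1]] : List (List ℕ)).getD e.val []).getD w.val 0

/-- the graph without the unit edge `(j, i)` -/
def GD (j : Fin 10) (i : Fin 3) : SimpleGraph (Fin 15) := GG.deleteEdges {s(sV j i, tV j i)}

theorem GD_adj (j : Fin 10) (i : Fin 3) (a b : Fin 15) :
    (GD j i).Adj a b ↔ GG.Adj a b ∧ s(a, b) ≠ s(sV j i, tV j i) := by
  unfold GD
  rw [SimpleGraph.deleteEdges_adj]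
  simp

/-- alive edges without `(j0, i0)` -/
def alD (j0 : Fin 10) (i0 : Fin 3) (j : Fin 10) (i : Fin 3) : Bool :=
  act j i && !(Nat.beq j.val j0.val && Nat.beq i.val i0.val)

theorem edge_inj : ∀ j i j' i', act j i = true → act j' i' = true →
    ((sV j i = sV j' i' ∧ tV j i = tV j' i') ∨ (sV j i = tV j' i' ∧ tV j i = sV j' i')) →
    j = j' ∧ i = i' := by decide +kernel

theorem describes_GG : Describes act GG :=
  ⟨fun _ _ h => h, fun j i h => ⟨j, i, h, Or.inl ⟨rfl, rfl⟩⟩, fun _ _ h => h⟩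

theorem describes_GD (j0 : Fin 10) (i0 : Fin 3) (h0 : act j0 i0 = true) :
    Describes (alD j0 i0) (GD j0 i0) := by
  have hal : ∀ j i, alD j0 i0 j i = true ↔ (act j i = true ∧ ¬ (j = j0 ∧ i = i0)) := by
    intro j i
    unfold alD
    rw [Bool.and_eq_true, Bool.not_eq_true', Bool.and_eq_false_iff]
    constructor
    · rintro ⟨h1, h2⟩
      refine ⟨h1, ?_⟩
      rintro ⟨rfl, rfl⟩
      rcases h2 with h2 | h2 <;> simp at h2
    · rintro ⟨h1, h2⟩
      refine ⟨h1, ?_⟩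
      by_contra hcon
      push Not at hcon
      apply h2
      obtain ⟨h3, h4⟩ := hcon
      simp only [ne_eq, Bool.not_eq_false] at h3 h4
      exact ⟨Fin.ext (Nat.eq_of_beq_eq_true h3), Fin.ext (Nat.eq_of_beq_eq_true h4)⟩
  refine ⟨fun j i h => ((hal j i).1 h).1, fun j i h => ?_, fun a b h => ?_⟩
  · obtain ⟨h1, h2⟩ := (hal j i).1 h
    rw [GD_adj]
    refine ⟨⟨j, i, h1, Or.inl ⟨rfl, rfl⟩⟩, fun he => h2 ?_⟩
    rw [Sym2.eq_iff] at he
    exact edge_inj j i j0 i0 h1 h0 he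
  · rw [GD_adj] at h
    obtain ⟨⟨j, i, h1, h2⟩, h3⟩ := h
    refine ⟨j, i, (hal j i).2 ⟨h1, ?_⟩, h2⟩
    rintro ⟨rfl, rfl⟩
    apply h3
    rw [Sym2.eq_iff]
    rcases h2 with ⟨h4, h5⟩ | ⟨h4, h5⟩
    · exact Or.inl ⟨h4.symm, h5.symm⟩
    · exact Or.inr ⟨h5.symm, h4.symm⟩

/-- representatives of the edges -/
def repj (e : Fin 4) : Fin 10 := if e = 0 then 0 else 5

/-- representatives of the edges -/
def repi (e : Fin 4) : Fin 3 := ([0, 0, 1, 2] : List (Fin 3)).getD e.val 0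

theorem dep2_ok : ∀ e : Fin 4, ∀ w : Fin 15, w ≠ 0 →
    ∃ u ∈ nbr w, (¬ ((w = sV (repj e) (repi e) ∧ u = tV (repj e) (repi e)) ∨
      (w = tV (repj e) (repi e) ∧ u = sV (repj e) (repi e)))) ∧ dep2 e u < dep2 e w := by
  decide +kernel

theorem GD_connected (e : Fin 4) : (GD (repj e) (repi e)).Connected := by
  apply connected_of_depth _ 0 (dep2 e)
  intro w hw
  obtain ⟨u, hu, hne, hlt⟩ := dep2_ok e w hw
  refine ⟨u, ?_, hlt⟩
  rw [GD_adj, Ne, Sym2.eq_iff]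
  exact ⟨(adj_iff w u).2 hu, hne⟩

theorem GG_connected : GG.Connected := by
  apply (GD_connected 0).mono
  intro a b h
  exact ((GD_adj _ _ _ _).1 h).1

theorem GG_two : TwoConnected GG := by
  refine ⟨by simp, GG_connected, del_connected⟩

/-- rotation as a function -/
def rotF (k : ℕ) (v : Fin 15) : Fin 15 :=
  if v.val < 5 then ⟨(v.val + k) % 5, by omega⟩ else ⟨5 + (v.val - 5 + 2 * k) % 10, by omega⟩

theorem rotF_inv : ∀ k : Fin 5, ∀ v, rotF (5 - k.val) (rotF k.val v) = v := by decide +kernel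

theorem rotF_inv' : ∀ k : Fin 5, ∀ v, rotF k.val (rotF (5 - k.val) v) = v := by decide +kernel

/-- rotation as a permutation -/
def rot (k : Fin 5) : Equiv.Perm (Fin 15) where
  toFun := rotF k.val
  invFun := rotF (5 - k.val)
  left_inv := rotF_inv k
  right_inv := rotF_inv' k

theorem rot_adj : ∀ k : Fin 5, ∀ a b, GG.Adj (rot k a) (rot k b) ↔ GG.Adj a b := by
  have : ∀ k : Fin 5, ∀ a b, rotF k.val b ∈ nbr (rotF k.val a) ↔ b ∈ nbr a := by decide +kernel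
  intro k a b
  rw [adj_iff, adj_iff]
  exact this k a b

/-- the rotation bringing the representative base edge to `j` -/
def kk (j : Fin 10) : Fin 5 := ([0, 2, 4, 1, 3, 0, 1, 2, 3, 4] : List (Fin 5)).getD j.val 0

/-- representative edge -/
def repe (j : Fin 10) (i : Fin 3) : Fin 4 :=
  if j.val < 5 then 0 else ([1, 2, 3] : List (Fin 4)).getD i.val 0

theorem rep_ok : ∀ j i, act j i = true →
    sV j i = rotF (kk j).val (sV (repj (repe j i)) (repi (repe j i))) ∧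
    tV j i = rotF (kk j).val (tV (repj (repe j i)) (repi (repe j i))) := by decide +kernel

theorem act_rep : ∀ e, act (repj e) (repi e) = true := by decide +kernel

theorem gamma_rep (j : Fin 10) (i : Fin 3) (h : act j i = true) (g : ℕ → ℤ)
    (hg : IsGraphGamma (GD (repj (repe j i)) (repi (repe j i))) g) :
    IsGraphGamma (GD j i) g := by
  apply gamma_iso _ _ (rot (kk j)) _ g hg
  intro x y
  obtain ⟨h1, h2⟩ := rep_ok j i h
  rw [GD_adj, GD_adj, rot_adj, h1, h2]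
  change GG.Adj x y ∧ s((rot (kk j)) x, (rot (kk j)) y) ≠ s((rot (kk j)) _, (rot (kk j)) _) ↔ _
  rw [Ne, Sym2.eq_iff, Ne, Sym2.eq_iff]
  simp only [EmbeddingLike.apply_eq_iff_eq]

end Pool.Agent.SEP
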