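import Pool.Agent.SEP.Cfg

namespace Pool.Agent.SEP

/-- number of nonzero entries -/
def size (σ : Fin 10 → Pat) : ℕ := ∑ j, (posN (σ j) + negN (σ j))

theorem prod_wS (al : Fin 10 → Fin 3 → Bool) (σ : Fin 10 → Pat) :
    ∏ j, wS al j (σ j) = if (∀ j i, al j i = false → σ j i = 0) then BB ^ size σ else 0 := by
  unfold wS size
  split_ifs with h
  · rw [← Finset.prod_pow_eq_pow_sum]
    exact Finset.prod_congr rfl fun j _ => by rw [if_pos (h j)]
  · push Not at h
    obtain ⟨j, i, h1, h2⟩ := h
    apply Finset.prod_eq_zero (Finset.mem_univ j)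
    rw [if_neg]
    intro hcon
    exact h2 (hcon i h1)

theorem DZ_lane (al : Fin 10 → Fin 3 → Bool) (hal : OkAl al) (σ : Fin 10 → Pat)
    (hσ : ∀ j i, al j i = false → σ j i = 0) (c : Fin 10 → ℤ) (hc : c ∈ cyc)
    (hb : ∀ j, Bad al j → c j = 0) :
    DZ (fun j i => ((σ j i : SignType) : ℤ)) c + ((∑ j, con al j (σ j) (Sum.inr c) : ℕ) : ℤ)
      = (wc c : ℤ) := by
  have : DZ (fun j i => ((σ j i : SignType) : ℤ)) c =
      ∑ j, wt j * lvA (fun j i => ((σ j i : SignType) : ℤ)) c j := rfl
  rw [this]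
  unfold wc
  push_cast
  rw [← Finset.sum_add_distrib]
  refine Finset.sum_congr rfl fun j _ => ?_
  have := lvl_identity al hal σ hσ c hc hb j
  push_cast at this
  exact this

theorem count_spec (al : Fin 10 → Fin 3 → Bool) (hal : OkAl al) :
    F (pk (lanes al) (fun _ => 2 ^ 23)) (List.ofFn (lvlC al)) (pk (lanes al) A0) =
      ∑ σ : Fin 10 → Pat, if VS al σ then BB ^ size σ else 0 := by
  have hA0 : ∀ l ∈ lanes al, A0 l < 2 ^ 23 := by
    intro l hl
    rcases mem_lanes al l hl with ⟨t, rfl⟩ | ⟨c, rfl, hc, hb⟩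
    · simp [A0]
    · have := wc_pos c hc
      simp only [A0]
      omega
  rw [F_spec (lanes al) 245760 10 (lvlC al) (wS al) (con al) (fun i φ => level_ok al hal i φ)
    (fun i s l _ => con_le al i s l) A0 (fun l hl => by have := hA0 l hl; omega) hA0]
  refine Finset.sum_congr rfl fun σ _ => ?_
  rw [prod_wS]
  by_cases hσ : ∀ j i, al j i = false → σ j i = 0
  · rw [if_pos hσ]
    have hiff : (∀ l ∈ lanes al, A0 l + ∑ i, con al i (σ i) l < 2 ^ 23) ↔ VS al σ := by
      constructor
      · intro h
        refine ⟨hσ, fun c hc hb => ?_⟩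
        have hmem : (Sum.inr c : Lane) ∈ lanes al := by
          unfold lanes
          rw [List.mem_append, List.mem_map]
          right
          exact ⟨c, List.mem_filter.2 ⟨hc, by simpa using hb⟩, rfl⟩
        have h1 := h _ hmem
        have h2 := DZ_lane al hal σ hσ c hc hb
        have h3 := wc_le c hc
        simp only [A0] at h1
        omega
      · rintro ⟨-, h⟩ l hl
        rcases mem_lanes al l hl with ⟨t, rfl⟩ | ⟨c, rfl, hc, hb⟩
        · have : ∑ i, con al i (σ i) (Sum.inl t) ≤ ∑ i : Fin 10, 245760 :=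
            Finset.sum_le_sum fun i _ => con_le al i (σ i) _
          simp only [Finset.sum_const, Finset.card_univ, Fintype.card_fin, smul_eq_mul] at this
          simp only [A0]
          omega
        · have h1 := h c hc hb
          have h2 := DZ_lane al hal σ hσ c hc hb
          have h3 := wc_le c hc
          simp only [A0]
          omega
    by_cases hV : VS al σ
    · rw [if_pos hV, if_pos (hiff.2 hV), mul_one]
    · rw [if_neg hV, if_neg (fun h => hV (hiff.1 h)), mul_zero]
  · rw [if_neg hσ, zero_mul, if_neg (fun h => hσ h.1)]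

theorem digits_unique (B : ℕ) : ∀ (n : ℕ) (a b : ℕ → ℕ),
    (∀ m < n, a m < B) → (∀ m < n, b m < B) →
    ∑ m ∈ Finset.range n, a m * B ^ m = ∑ m ∈ Finset.range n, b m * B ^ m →
    ∀ m < n, a m = b m := by
  intro n
  induction n with
  | zero => intro a b _ _ _ m hm; omega
  | succ n ih =>
    intro a b ha hb h m hm
    rw [Finset.sum_range_succ', Finset.sum_range_succ'] at h
    have e : ∀ f : ℕ → ℕ, ∑ m ∈ Finset.range n, f (m + 1) * B ^ (m + 1) =
        B * ∑ m ∈ Finset.range n, f (m + 1) * B ^ m := by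
      intro f
      rw [Finset.mul_sum]
      exact Finset.sum_congr rfl fun m _ => by ring
    rw [e a, e b] at h
    simp only [pow_zero, mul_one] at h
    have hB : 0 < B := by have := ha 0 (by omega); omega
    have h0 : a 0 = b 0 := by
      have h1 := congrArg (· % B) h
      simp only [Nat.mul_add_mod_self_left] at h1
      rwa [Nat.mod_eq_of_lt (ha 0 (by omega)), Nat.mod_eq_of_lt (hb 0 (by omega))] at h1
    rw [h0] at h
    have h2 : ∑ m ∈ Finset.range n, a (m + 1) * B ^ m = ∑ m ∈ Finset.range n, b (m + 1) * B ^ m :=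
      Nat.eq_of_mul_eq_mul_left hB (by omega)
    cases m with
    | zero => exact h0
    | succ m =>
      exact ih (fun m => a (m + 1)) (fun m => b (m + 1)) (fun m hm => ha (m + 1) (by omega))
        (fun m hm => hb (m + 1) (by omega)) h2 m (by omega)

/-- number of valid sign vectors with `m` nonzero entries -/
noncomputable def fm (al : Fin 10 → Fin 3 → Bool) (m : ℕ) : ℕ :=
  (Finset.univ.filter fun σ : Fin 10 → Pat => VS al σ ∧ size σ = m).card

theorem size_lt (σ : Fin 10 → Pat) : size σ < 31 := by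
  unfold size
  have h3 : ∀ j, posN (σ j) + negN (σ j) ≤ 3 := by
    have : ∀ s : Pat, posN s + negN s ≤ 3 := by decide +kernel
    exact fun j => this _
  have := Finset.sum_le_sum fun (j : Fin 10) (_ : j ∈ Finset.univ) => h3 j
  simp only [Finset.sum_const, Finset.card_univ, Fintype.card_fin, smul_eq_mul] at this
  omega

theorem sum_by_size (al : Fin 10 → Fin 3 → Bool) (f : ℕ → ℕ) :
    (∑ σ : Fin 10 → Pat, if VS al σ then f (size σ) else 0) =
      ∑ m ∈ Finset.range 31, fm al m * f m := by
  rw [← Finset.sum_filter]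
  rw [← Finset.sum_fiberwise_of_maps_to (s := Finset.univ.filter (VS al)) (t := Finset.range 31)
    (g := size) (fun σ _ => by simpa using size_lt σ)]
  refine Finset.sum_congr rfl fun m _ => ?_
  rw [Finset.filter_filter]
  unfold fm
  rw [Finset.card_eq_sum_ones, Finset.sum_mul]
  refine Finset.sum_congr rfl fun σ hσ => ?_
  rw [(Finset.mem_filter.1 hσ).2.2, one_mul]

theorem fm_lt (al : Fin 10 → Fin 3 → Bool) (m : ℕ) : fm al m < BB := by
  have h1 : fm al m ≤ Fintype.card (Fin 10 → Pat) := by
    unfold fm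
    exact (Finset.card_filter_le _ _).trans (le_of_eq Finset.card_univ)
  have h2 : Fintype.card (Fin 10 → Pat) = 27 ^ 10 := by
    rw [Fintype.card_fun, Fintype.card_fun]; rfl
  rw [h2] at h1
  unfold BB
  omega

/-- the counts are read off the result of the enumeration -/
theorem fm_eq (al : Fin 10 → Fin 3 → Bool) (hal : OkAl al) (L : List ℕ) (hL : ∀ x ∈ L, x < BB)
    (h : F (pk (lanes al) (fun _ => 2 ^ 23)) (List.ofFn (lvlC al)) (pk (lanes al) A0) =
      ∑ m ∈ Finset.range 31, L.getD m 0 * BB ^ m) :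
    ∀ m < 31, fm al m = L.getD m 0 := by
  rw [count_spec al hal, sum_by_size al (fun m => BB ^ m)] at h
  apply digits_unique BB 31 _ _ (fun m _ => fm_lt al m) _ h
  intro m _
  by_cases hm : m < L.length
  · rw [List.getD_eq_getElem _ _ hm]
    exact hL _ (List.getElem_mem hm)
  · rw [List.getD_eq_default _ _ (by omega)]
    unfold BB; norm_num

theorem pat_card : ∀ s : Pat, (∑ i, if s i ≠ 0 then 1 else 0) = posN s + negN s := by
  decide +kernel

theorem card_supp (τ : Fin 10 × Fin 3 → SignType) :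
    (Finset.univ.filter fun e => τ e ≠ 0).card =
      size ((Equiv.curry (Fin 10) (Fin 3) SignType) τ) := by
  rw [Finset.card_filter, Fintype.sum_prod_type]
  unfold size
  exact Finset.sum_congr rfl fun j _ => pat_card fun i => τ (j, i)

theorem lattice_fm (al : Fin 10 → Fin 3 → Bool) (H : SimpleGraph (Fin 15)) (hH : Describes al H)
    (hc : H.Connected) (k : ℕ) :
    latticeCount (symEdgePolytope H) k = ∑ m ∈ Finset.range 31, fm al m * Nat.choose k m := by
  rw [lattice_eq al H hH hc k]
  have h1 : {g : FlZ | Valid al g ∧ ∑ j, ∑ i, (g j i).natAbs ≤ k} =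
      (Equiv.curry (Fin 10) (Fin 3) ℤ) '' {g : Fin 10 × Fin 3 → ℤ |
        (VS al ((Equiv.curry (Fin 10) (Fin 3) SignType) fun e => SignType.sign (g e)))
          ∧ ∑ e, (g e).natAbs ≤ k} := by
    ext g
    simp only [Set.mem_ofPred_eq, Set.mem_image]
    constructor
    · rintro ⟨hv, hk⟩
      refine ⟨(Equiv.curry (Fin 10) (Fin 3) ℤ).symm g, ⟨?_, ?_⟩, by simp⟩
      · exact (valid_iff al g).1 hv
      · rw [Fintype.sum_prod_type]; exact hk
    · rintro ⟨g', ⟨hv, hk⟩, rfl⟩
      refine ⟨(valid_iff al _).2 hv, ?_⟩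
      rw [Fintype.sum_prod_type] at hk; exact hk
  rw [h1, Set.ncard_image_of_injective _ (Equiv.injective _)]
  rw [ncard_sign (ι := Fin 10 × Fin 3) (fun τ => VS al ((Equiv.curry (Fin 10) (Fin 3) SignType) τ)) k]
  rw [← sum_by_size al (fun m => Nat.choose k m), Finset.sum_filter]
  refine Fintype.sum_equiv (Equiv.curry (Fin 10) (Fin 3) SignType) _ _ fun τ => ?_
  rw [card_supp]

end Pool.Agent.SEP
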