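import Pool.Agent.SEP.Conf
import Pool.Agent.SEP.Flow

namespace Pool.Agent.SEP

open scoped Pointwise

/-- weights of the base edges, used to break ties between flows -/
def wt (j : Fin 10) : ℤ :=
  ([32769, 32770, 32772, 32776, 32784, 32800, 32896, 33280, 34816, 40960] : List ℤ).getD j.val 0

/-- integer flows -/
abbrev FlZ := Fin 10 → Fin 3 → ℤ

/-- real flows -/
abbrev FlR := Fin 10 → Fin 3 → ℝ

/-- first-order change of the weighted cost along an integer vector of the base graph -/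
def DZ (g : FlZ) (c : Fin 10 → ℤ) : ℤ := ∑ j, wt j * ∑ i, ddz (g j i) (lift c j i)

/-- some unit edge of the base edge `j` is missing -/
def Bad (al : Fin 10 → Fin 3 → Bool) (j : Fin 10) : Prop := ∃ i, act j i = true ∧ al j i = false

/-- boundary of an integer flow -/
def bdz (g : FlZ) (v : Fin 15) : ℤ := ∑ j, ∑ i, g j i * inc j i v

/-- boundary of a real flow -/
noncomputable def bdr (g : FlR) (v : Fin 15) : ℝ := ∑ j, ∑ i, g j i * (inc j i v : ℝ)

/-- cast of an integer flow -/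
def castF (g : FlZ) : FlR := fun j i => (g j i : ℝ)

theorem bdr_castF (g : FlZ) (v : Fin 15) : bdr (castF g) v = (bdz g v : ℝ) := by
  unfold bdr bdz castF; push_cast; rfl

/-- the integer flows supported on the alive edges that have no improving cycle -/
def Valid (al : Fin 10 → Fin 3 → Bool) (g : FlZ) : Prop :=
  (∀ j i, al j i = false → g j i = 0) ∧
    ∀ c ∈ cyc, (∀ j, Bad al j → c j = 0) → 0 < DZ g c

theorem dig_aux (S T : ℤ) (h1 : T ≤ 32767) (h2 : -32767 ≤ T) (h : 32768 * S + T = 0) :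
    T = 0 := by omega

theorem dig_aux' (S T : ℤ) (h1 : T ≤ 32767) (h : 0 < 32768 * S + T) : 0 ≤ S := by omega

theorem dig_one (a r : ℤ) (h1 : -1 ≤ a) (h2 : a ≤ 1) (h : a + 2 * r = 0) : a = 0 ∧ r = 0 := by
  omega

theorem dig_three (a r : ℤ) (h1 : -3 ≤ a) (h2 : a ≤ 3) (h : a + 4 * r = 0) : a = 0 ∧ r = 0 := by
  omega

theorem sum_zero_digits (a0 a1 a2 a3 a4 a5 a6 a7 a8 a9 : ℤ)
    (h0 : -1 ≤ a0 ∧ a0 ≤ 1) (h1 : -1 ≤ a1 ∧ a1 ≤ 1) (h2 : -1 ≤ a2 ∧ a2 ≤ 1)
    (h3 : -1 ≤ a3 ∧ a3 ≤ 1) (h4 : -1 ≤ a4 ∧ a4 ≤ 1)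
    (h5 : -3 ≤ a5 ∧ a5 ≤ 3) (h6 : -3 ≤ a6 ∧ a6 ≤ 3) (h7 : -3 ≤ a7 ∧ a7 ≤ 3)
    (h8 : -3 ≤ a8 ∧ a8 ≤ 3) (h9 : -3 ≤ a9 ∧ a9 ≤ 3)
    (h : 32769 * a0 + 32770 * a1 + 32772 * a2 + 32776 * a3 + 32784 * a4 + 32800 * a5
      + 32896 * a6 + 33280 * a7 + 34816 * a8 + 40960 * a9 = 0) :
    a0 = 0 ∧ a1 = 0 ∧ a2 = 0 ∧ a3 = 0 ∧ a4 = 0 ∧ a5 = 0 ∧ a6 = 0 ∧ a7 = 0 ∧ a8 = 0 ∧ a9 = 0 := by
  obtain ⟨l0, u0⟩ := h0
  obtain ⟨l1, u1⟩ := h1
  obtain ⟨l2, u2⟩ := h2
  obtain ⟨l3, u3⟩ := h3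
  obtain ⟨l4, u4⟩ := h4
  obtain ⟨l5, u5⟩ := h5
  obtain ⟨l6, u6⟩ := h6
  obtain ⟨l7, u7⟩ := h7
  obtain ⟨l8, u8⟩ := h8
  obtain ⟨l9, u9⟩ := h9
  obtain ⟨S, hS⟩ : ∃ S, S = a0 + a1 + a2 + a3 + a4 + a5 + a6 + a7 + a8 + a9 := ⟨_, rfl⟩
  obtain ⟨T, hT⟩ : ∃ T, T = a0 + 2 * a1 + 4 * a2 + 8 * a3 + 16 * a4 + 32 * a5 + 128 * a6
    + 512 * a7 + 2048 * a8 + 8192 * a9 := ⟨_, rfl⟩
  have hT1 : T ≤ 32767 := by
    rw [hT]; clear h hT hS
    linarith
  have hT2 : -32767 ≤ T := by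
    rw [hT]; clear h hT hS
    linarith
  have hST : 32768 * S + T = 0 := by rw [hS, hT, ← h]; ring
  have hT0 : T = 0 := dig_aux S T hT1 hT2 hST
  clear hST hS h hT1 hT2
  obtain ⟨r9, k9⟩ : ∃ r, r = a9 := ⟨_, rfl⟩
  obtain ⟨r8, k8⟩ : ∃ r, r = a8 + 4 * r9 := ⟨_, rfl⟩
  obtain ⟨r7, k7⟩ : ∃ r, r = a7 + 4 * r8 := ⟨_, rfl⟩
  obtain ⟨r6, k6⟩ : ∃ r, r = a6 + 4 * r7 := ⟨_, rfl⟩
  obtain ⟨r5, k5⟩ : ∃ r, r = a5 + 4 * r6 := ⟨_, rfl⟩
  obtain ⟨r4, k4⟩ : ∃ r, r = a4 + 2 * r5 := ⟨_, rfl⟩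
  obtain ⟨r3, k3⟩ : ∃ r, r = a3 + 2 * r4 := ⟨_, rfl⟩
  obtain ⟨r2, k2⟩ : ∃ r, r = a2 + 2 * r3 := ⟨_, rfl⟩
  obtain ⟨r1, k1⟩ : ∃ r, r = a1 + 2 * r2 := ⟨_, rfl⟩
  have e : a0 + 2 * r1 = 0 := by
    rw [k1, k2, k3, k4, k5, k6, k7, k8, k9, ← hT0, hT]; ring
  clear hT hT0
  have e0 := dig_one a0 r1 l0 u0 e
  have e1 := dig_one a1 r2 l1 u1 (by rw [← k1]; exact e0.2)
  have e2 := dig_one a2 r3 l2 u2 (by rw [← k2]; exact e1.2)
  have e3 := dig_one a3 r4 l3 u3 (by rw [← k3]; exact e2.2)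
  have e4 := dig_one a4 r5 l4 u4 (by rw [← k4]; exact e3.2)
  have e5 := dig_three a5 r6 l5 u5 (by rw [← k5]; exact e4.2)
  have e6 := dig_three a6 r7 l6 u6 (by rw [← k6]; exact e5.2)
  have e7 := dig_three a7 r8 l7 u7 (by rw [← k7]; exact e6.2)
  have e8 := dig_three a8 r9 l8 u8 (by rw [← k8]; exact e7.2)
  exact ⟨e0.1, e1.1, e2.1, e3.1, e4.1, e5.1, e6.1, e7.1, e8.1, by rw [← k9]; exact e8.2⟩

theorem sum_pos_digits (a0 a1 a2 a3 a4 a5 a6 a7 a8 a9 : ℤ)
    (h0 : -1 ≤ a0 ∧ a0 ≤ 1) (h1 : -1 ≤ a1 ∧ a1 ≤ 1) (h2 : -1 ≤ a2 ∧ a2 ≤ 1)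
    (h3 : -1 ≤ a3 ∧ a3 ≤ 1) (h4 : -1 ≤ a4 ∧ a4 ≤ 1)
    (h5 : -3 ≤ a5 ∧ a5 ≤ 3) (h6 : -3 ≤ a6 ∧ a6 ≤ 3) (h7 : -3 ≤ a7 ∧ a7 ≤ 3)
    (h8 : -3 ≤ a8 ∧ a8 ≤ 3) (h9 : -3 ≤ a9 ∧ a9 ≤ 3)
    (h : 0 < 32769 * a0 + 32770 * a1 + 32772 * a2 + 32776 * a3 + 32784 * a4 + 32800 * a5
      + 32896 * a6 + 33280 * a7 + 34816 * a8 + 40960 * a9) :
    0 ≤ a0 + a1 + a2 + a3 + a4 + a5 + a6 + a7 + a8 + a9 := by
  obtain ⟨l0, u0⟩ := h0
  obtain ⟨l1, u1⟩ := h1
  obtain ⟨l2, u2⟩ := h2
  obtain ⟨l3, u3⟩ := h3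
  obtain ⟨l4, u4⟩ := h4
  obtain ⟨l5, u5⟩ := h5
  obtain ⟨l6, u6⟩ := h6
  obtain ⟨l7, u7⟩ := h7
  obtain ⟨l8, u8⟩ := h8
  obtain ⟨l9, u9⟩ := h9
  obtain ⟨S, hS⟩ : ∃ S, S = a0 + a1 + a2 + a3 + a4 + a5 + a6 + a7 + a8 + a9 := ⟨_, rfl⟩
  obtain ⟨T, hT⟩ : ∃ T, T = a0 + 2 * a1 + 4 * a2 + 8 * a3 + 16 * a4 + 32 * a5 + 128 * a6
    + 512 * a7 + 2048 * a8 + 8192 * a9 := ⟨_, rfl⟩
  have hT1 : T ≤ 32767 := by
    rw [hT]; clear h hT hS
    linarith
  have hST : 0 < 32768 * S + T := by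
    refine lt_of_lt_of_eq h ?_
    rw [hS, hT]; ring
  rw [← hS]
  exact dig_aux' S T hT1 hST

theorem sum10 {M : Type} [AddCommMonoid M] (f : Fin 10 → M) :
    ∑ j, f j = f 0 + f 1 + f 2 + f 3 + f 4 + f 5 + f 6 + f 7 + f 8 + f 9 := by
  rw [Fin.sum_univ_castSucc, Fin.sum_univ_castSucc, Fin.sum_univ_eight]; rfl

/-- contribution of one base edge -/
def lvA (g : FlZ) (c : Fin 10 → ℤ) (j : Fin 10) : ℤ := ∑ i, ddz (g j i) (lift c j i)

theorem ddz_zero (a : ℤ) : ddz a 0 = 0 := by simp [ddz]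

theorem ddz_unit (a b : ℤ) (hb : b = 1 ∨ b = -1) : ddz a b = 1 ∨ ddz a b = -1 := by
  unfold ddz
  rcases hb with rfl | rfl <;> split_ifs <;> simp

theorem act_low : ∀ j : Fin 10, j.val < 5 → act j 0 = true ∧ act j 1 = false ∧ act j 2 = false := by
  decide +kernel

theorem act_high : ∀ j : Fin 10, 5 ≤ j.val → act j 0 = true ∧ act j 1 = true ∧ act j 2 = true := by
  decide +kernel

theorem lvA_low (g : FlZ) (c : Fin 10 → ℤ) (j : Fin 10) (hj : j.val < 5)
    (hc : c j = 0 ∨ c j = 1 ∨ c j = -1) :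
    (-1 ≤ lvA g c j ∧ lvA g c j ≤ 1) ∧ (c j ≠ 0 → lvA g c j ≠ 0) := by
  obtain ⟨a0, a1, a2⟩ := act_low j hj
  have h : lvA g c j = ddz (g j 0) (c j) := by
    unfold lvA lift
    rw [Fin.sum_univ_three, a0, a1, a2]
    simp [ddz_zero]
  rw [h]
  rcases hc with h0 | h1
  · rw [h0, ddz_zero]; simp
  · rcases ddz_unit (g j 0) (c j) h1 with h2 | h2 <;> rw [h2] <;> simp

theorem lvA_high (g : FlZ) (c : Fin 10 → ℤ) (j : Fin 10) (hj : 5 ≤ j.val)
    (hc : c j = 0 ∨ c j = 1 ∨ c j = -1) :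
    (-3 ≤ lvA g c j ∧ lvA g c j ≤ 3) ∧ (c j ≠ 0 → lvA g c j ≠ 0) := by
  obtain ⟨a0, a1, a2⟩ := act_high j hj
  have h : lvA g c j = ddz (g j 0) (c j) + ddz (g j 1) (c j) + ddz (g j 2) (c j) := by
    unfold lvA lift
    rw [Fin.sum_univ_three, a0, a1, a2]
    simp
  rw [h]
  rcases hc with h0 | h1
  · rw [h0, ddz_zero, ddz_zero, ddz_zero]; simp
  · rcases ddz_unit (g j 0) (c j) h1 with h2 | h2 <;>
    rcases ddz_unit (g j 1) (c j) h1 with h3 | h3 <;>
    rcases ddz_unit (g j 2) (c j) h1 with h4 | h4 <;> rw [h2, h3, h4] <;> norm_num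

theorem DZ_eq (g : FlZ) (c : Fin 10 → ℤ) : DZ g c =
    32769 * lvA g c 0 + 32770 * lvA g c 1 + 32772 * lvA g c 2 + 32776 * lvA g c 3
    + 32784 * lvA g c 4 + 32800 * lvA g c 5 + 32896 * lvA g c 6 + 33280 * lvA g c 7
    + 34816 * lvA g c 8 + 40960 * lvA g c 9 := by
  have : DZ g c = ∑ j, wt j * lvA g c j := rfl
  rw [this, sum10]; rfl

theorem DZ_ne (g : FlZ) (c : Fin 10 → ℤ) (hc : c ∈ cyc) : DZ g c ≠ 0 := by
  intro h
  rw [DZ_eq] at h
  have hv := cyc_vals c hc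
  obtain ⟨j, hj⟩ := cyc_ne c hc
  have L : ∀ j : Fin 10, j.val < 5 → _ := fun j hj => lvA_low g c j hj (hv j)
  have U : ∀ j : Fin 10, 5 ≤ j.val → _ := fun j hj => lvA_high g c j hj (hv j)
  obtain ⟨z0, z1, z2, z3, z4, z5, z6, z7, z8, z9⟩ := sum_zero_digits _ _ _ _ _ _ _ _ _ _
    (L 0 (by decide)).1 (L 1 (by decide)).1 (L 2 (by decide)).1 (L 3 (by decide)).1
    (L 4 (by decide)).1 (U 5 (by decide)).1 (U 6 (by decide)).1 (U 7 (by decide)).1
    (U 8 (by decide)).1 (U 9 (by decide)).1 h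
  have hz : ∀ j, lvA g c j = 0 := by
    intro j; fin_cases j <;> assumption
  rcases lt_or_ge j.val 5 with h5 | h5
  · exact (L j h5).2 hj (hz j)
  · exact (U j h5).2 hj (hz j)

theorem DZ_pos_cost (g : FlZ) (c : Fin 10 → ℤ) (hc : c ∈ cyc) (h : 0 < DZ g c) :
    0 ≤ ∑ j, lvA g c j := by
  rw [DZ_eq] at h
  have hv := cyc_vals c hc
  have L : ∀ j : Fin 10, j.val < 5 → _ := fun j hj => lvA_low g c j hj (hv j)
  have U : ∀ j : Fin 10, 5 ≤ j.val → _ := fun j hj => lvA_high g c j hj (hv j)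
  rw [sum10]
  exact sum_pos_digits _ _ _ _ _ _ _ _ _ _
    (L 0 (by decide)).1 (L 1 (by decide)).1 (L 2 (by decide)).1 (L 3 (by decide)).1
    (L 4 (by decide)).1 (U 5 (by decide)).1 (U 6 (by decide)).1 (U 7 (by decide)).1
    (U 8 (by decide)).1 (U 9 (by decide)).1 h

theorem wt_pos : ∀ j, 0 < wt j := by decide +kernel

theorem lift_cast (c : Fin 10 → ℤ) (j : Fin 10) (i : Fin 3) :
    lift (fun j => (c j : ℝ)) j i = ((lift c j i : ℤ) : ℝ) := by
  unfold lift; split_ifs <;> simp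

theorem DR_wt (g : FlZ) (c : Fin 10 → ℤ) :
    DR (fun j => (wt j : ℝ)) g (lift fun j => (c j : ℝ)) = ((DZ g c : ℤ) : ℝ) := by
  unfold DR DZ
  push_cast
  refine Finset.sum_congr rfl fun j _ => ?_
  rw [Finset.mul_sum]
  refine Finset.sum_congr rfl fun i _ => ?_
  rw [ddz_cast, lift_cast]

theorem DR_one (g : FlZ) (c : Fin 10 → ℤ) :
    DR (fun _ => (1 : ℝ)) g (lift fun j => (c j : ℝ)) = ((∑ j, lvA g c j : ℤ) : ℝ) := by
  unfold DR lvA
  push_cast
  refine Finset.sum_congr rfl fun j _ => ?_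
  refine Finset.sum_congr rfl fun i _ => ?_
  rw [ddz_cast, lift_cast, one_mul]

theorem inc_mid : ∀ j : Fin 10, 5 ≤ j.val → ∀ j' : Fin 10, ∀ i' : Fin 3,
    inc j' i' (tV j 0) = (if j' = j ∧ i' = 0 then 1 else 0) - (if j' = j ∧ i' = 1 then 1 else 0) ∧
    inc j' i' (tV j 1) = (if j' = j ∧ i' = 1 then 1 else 0) - (if j' = j ∧ i' = 2 then 1 else 0) := by
  decide +kernel

theorem sum_ind (z : FlR) (j : Fin 10) (i : Fin 3) :
    ∑ j', ∑ i', z j' i' * (((if j' = j ∧ i' = i then 1 else 0) : ℤ) : ℝ) = z j i := by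
  rw [Finset.sum_eq_single j]
  · rw [Finset.sum_eq_single i]
    · simp
    · intro b _ hb; simp [hb]
    · simp
  · intro b _ hb
    exact Finset.sum_eq_zero fun i' _ => by simp [hb]
  · simp

theorem bdr_lift_low (z : Fin 10 → ℝ) (u : Fin 5) :
    bdr (lift z) (u.castLE (by decide)) = ∑ j, z j * (binc j u : ℝ) := by
  unfold bdr
  refine Finset.sum_congr rfl fun j _ => ?_
  rw [← inc_low j u]
  push_cast
  rw [Finset.mul_sum]
  refine Finset.sum_congr rfl fun i _ => ?_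
  unfold lift; split_ifs <;> simp

theorem bdz_lift (c : Fin 10 → ℤ) (hc : c ∈ cyc) (v : Fin 15) : bdz (lift c) v = 0 := by
  unfold bdz
  have h : ∀ j, ∑ i, lift c j i * inc j i v = c j * ∑ i, (if act j i then inc j i v else 0) := by
    intro j
    rw [Finset.mul_sum]
    refine Finset.sum_congr rfl fun i _ => ?_
    unfold lift; split_ifs <;> simp
  rw [Finset.sum_congr rfl fun j _ => h j]
  rcases lt_or_ge v.val 5 with hv | hv
  · refine Eq.trans ?_ (cyc_bcirc c hc ⟨v.val, hv⟩)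
    refine Finset.sum_congr rfl fun j _ => ?_
    rw [← inc_low j ⟨v.val, hv⟩]
    rfl
  · refine Finset.sum_eq_zero fun j _ => ?_
    rw [inc_high j v hv, mul_zero]

theorem exists_lift (al : Fin 10 → Fin 3 → Bool) (hal : ∀ j i, al j i = true → act j i = true)
    (z : FlR) (hz : ∀ j i, al j i = false → z j i = 0) (hb : ∀ v, bdr z v = 0) :
    ∃ y : Fin 10 → ℝ, Circ y ∧ z = lift y ∧ ∀ j, Bad al j → y j = 0 := by
  have hin : ∀ j i, act j i = false → z j i = 0 := by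
    intro j i h
    apply hz
    by_contra h'
    have := hal j i (by simpa using h')
    rw [this] at h; exact absurd h (by decide)
  have h01 : ∀ j : Fin 10, 5 ≤ j.val → z j 0 = z j 1 ∧ z j 1 = z j 2 := by
    intro j hj
    constructor
    · have := hb (tV j 0)
      unfold bdr at this
      have e : ∀ j' i', z j' i' * (inc j' i' (tV j 0) : ℝ) =
          z j' i' * (((if j' = j ∧ i' = 0 then 1 else 0) : ℤ) : ℝ)
            - z j' i' * (((if j' = j ∧ i' = 1 then 1 else 0) : ℤ) : ℝ) := by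
        intro j' i'
        rw [(inc_mid j hj j' i').1]; push_cast; ring
      simp only [e, Finset.sum_sub_distrib] at this
      rw [sum_ind, sum_ind] at this
      linarith
    · have := hb (tV j 1)
      unfold bdr at this
      have e : ∀ j' i', z j' i' * (inc j' i' (tV j 1) : ℝ) =
          z j' i' * (((if j' = j ∧ i' = 1 then 1 else 0) : ℤ) : ℝ)
            - z j' i' * (((if j' = j ∧ i' = 2 then 1 else 0) : ℤ) : ℝ) := by
        intro j' i'
        rw [(inc_mid j hj j' i').2]; push_cast; ring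
      simp only [e, Finset.sum_sub_distrib] at this
      rw [sum_ind, sum_ind] at this
      linarith
  have hl : z = lift fun j => z j 0 := by
    funext j i
    unfold lift
    by_cases ha : act j i = true
    · rw [if_pos ha]
      rcases lt_or_ge j.val 5 with h5 | h5
      · obtain ⟨a0, a1, a2⟩ := act_low j h5
        fin_cases i
        · rfl
        · simp [a1] at ha
        · simp [a2] at ha
      · obtain ⟨e1, e2⟩ := h01 j h5
        fin_cases i
        · rfl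
        · exact e1.symm
        · exact (e1.trans e2).symm
    · rw [if_neg ha]
      exact hin j i (by simpa using ha)
  refine ⟨fun j => z j 0, ?_, hl, ?_⟩
  · intro u
    rw [← bdr_lift_low, ← hl]
    exact hb _
  · rintro j ⟨i, h1, h2⟩
    have h3 := hz j i h2
    rw [hl] at h3
    unfold lift at h3
    rwa [if_pos h1] at h3

/-- weighted cost of a real flow -/
noncomputable def WR (w : Fin 10 → ℝ) (z : FlR) : ℝ := ∑ j, ∑ i, w j * |z j i|

theorem WR_le (w : Fin 10 → ℝ) (hw : ∀ j, 0 ≤ w j) (g : FlZ) (z : FlR) :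
    WR w (castF g) + DR w g z ≤ WR w (fun j i => castF g j i + z j i) := by
  unfold WR DR
  rw [← Finset.sum_add_distrib]
  refine Finset.sum_le_sum fun j _ => ?_
  rw [← Finset.sum_add_distrib]
  refine Finset.sum_le_sum fun i _ => ?_
  have := dd_le (castF g j i) (z j i)
  have h2 := mul_le_mul_of_nonneg_left this (hw j)
  unfold castF at *
  linarith

theorem bdr_sub (y z : FlR) (v : Fin 15) :
    bdr (fun j i => y j i - z j i) v = bdr y v - bdr z v := by
  unfold bdr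
  rw [← Finset.sum_sub_distrib]
  refine Finset.sum_congr rfl fun j _ => ?_
  rw [← Finset.sum_sub_distrib]
  exact Finset.sum_congr rfl fun i _ => by ring

theorem strict_min (al : Fin 10 → Fin 3 → Bool) (hal : ∀ j i, al j i = true → act j i = true)
    (g : FlZ) (hg : Valid al g) (h : FlR) (hs : ∀ j i, al j i = false → h j i = 0)
    (hb : ∀ v, bdr h v = bdz g v) (hne : h ≠ castF g) :
    WR (fun j => (wt j : ℝ)) (castF g) < WR (fun j => (wt j : ℝ)) h := by
  obtain ⟨y, hy, hl, hbad⟩ := exists_lift al hal (fun j i => h j i - castF g j i)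
    (fun j i hji => by
      have := hg.1 j i hji
      simp [hs j i hji, castF, this])
    (fun v => by rw [bdr_sub, bdr_castF, hb v, sub_self])
  have hy0 : y ≠ 0 := by
    rintro rfl
    apply hne
    funext j i
    have := congrFun (congrFun hl j) i
    simp only [lift, Pi.zero_apply, ite_self] at this
    linarith
  have hpos := DR_pos (fun j => (wt j : ℝ)) g (Bad al)
    (fun c hc hcb => by rw [DR_wt]; exact_mod_cast hg.2 c hc hcb) y hy0 hy hbad
  have := WR_le (fun j => (wt j : ℝ)) (fun j => by exact_mod_cast (wt_pos j).le) g (lift y)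
  rw [← hl] at this hpos
  have e : (fun j i => castF g j i + (h j i - castF g j i)) = h := by funext j i; ring
  rw [e] at this
  linarith

theorem cost_min (al : Fin 10 → Fin 3 → Bool) (hal : ∀ j i, al j i = true → act j i = true)
    (g : FlZ) (hg : Valid al g) (h : FlR) (hs : ∀ j i, al j i = false → h j i = 0)
    (hb : ∀ v, bdr h v = bdz g v) :
    ∑ j, ∑ i, |castF g j i| ≤ ∑ j, ∑ i, |h j i| := by
  obtain ⟨y, hy, hl, hbad⟩ := exists_lift al hal (fun j i => h j i - castF g j i)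
    (fun j i hji => by
      have := hg.1 j i hji
      simp [hs j i hji, castF, this])
    (fun v => by rw [bdr_sub, bdr_castF, hb v, sub_self])
  have hpos := DR_nonneg (fun _ => (1 : ℝ)) g (Bad al)
    (fun c hc hcb => by
      rw [DR_one]; exact_mod_cast DZ_pos_cost g c hc (hg.2 c hc hcb)) y hy hbad
  have := WR_le (fun _ => (1 : ℝ)) (fun j => zero_le_one) g (lift y)
  rw [← hl] at this hpos
  have e : (fun j i => castF g j i + (h j i - castF g j i)) = h := by funext j i; ring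
  rw [e] at this
  unfold WR at this
  simp only [one_mul] at this
  linarith

theorem valid_inj (al : Fin 10 → Fin 3 → Bool) (hal : ∀ j i, al j i = true → act j i = true)
    (g g' : FlZ) (hg : Valid al g) (hg' : Valid al g') (hb : bdz g = bdz g') : g = g' := by
  by_contra hne
  have hcast : ∀ a b : FlZ, a ≠ b → castF a ≠ castF b := by
    intro a b hab h
    apply hab
    funext j i
    have := congrFun (congrFun h j) i
    simp only [castF] at this
    exact_mod_cast this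
  have h1 := strict_min al hal g hg (castF g')
    (fun j i h => by simp [castF, hg'.1 j i h]) (fun v => by rw [bdr_castF, hb])
    (hcast _ _ (Ne.symm hne))
  have h2 := strict_min al hal g' hg' (castF g)
    (fun j i h => by simp [castF, hg.1 j i h]) (fun v => by rw [bdr_castF, hb])
    (hcast _ _ hne)
  exact absurd h1 (not_lt.2 h2.le)

/-- weighted cost of an integer flow -/
def WZ (g : FlZ) : ℤ := ∑ j, ∑ i, wt j * |g j i|

theorem WZ_add (g : FlZ) (c : Fin 10 → ℤ) (hc : c ∈ cyc) :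
    WZ (fun j i => g j i + lift c j i) = WZ g + DZ g c := by
  unfold WZ DZ
  rw [← Finset.sum_add_distrib]
  refine Finset.sum_congr rfl fun j _ => ?_
  rw [Finset.mul_sum, ← Finset.sum_add_distrib]
  refine Finset.sum_congr rfl fun i _ => ?_
  have : lift c j i = 0 ∨ lift c j i = 1 ∨ lift c j i = -1 := by
    unfold lift
    split_ifs
    · exact cyc_vals c hc j
    · simp
  rw [ddz_eq _ _ this]; ring

theorem WZ_nonneg (g : FlZ) : 0 ≤ WZ g :=
  Finset.sum_nonneg fun j _ => Finset.sum_nonneg fun i _ =>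
    mul_nonneg (wt_pos j).le (abs_nonneg (g j i))

theorem bdz_add (g h : FlZ) (v : Fin 15) :
    bdz (fun j i => g j i + h j i) v = bdz g v + bdz h v := by
  unfold bdz
  rw [← Finset.sum_add_distrib]
  refine Finset.sum_congr rfl fun j _ => ?_
  rw [← Finset.sum_add_distrib]
  exact Finset.sum_congr rfl fun i _ => by ring

theorem exists_valid (al : Fin 10 → Fin 3 → Bool)
    (g0 : FlZ) (hs : ∀ j i, al j i = false → g0 j i = 0) :
    ∃ g, Valid al g ∧ bdz g = bdz g0 := by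
  obtain ⟨g, ⟨hg1, hg2⟩, hmin⟩ := WellFounded.has_min
    (measure fun g : FlZ => (WZ g).toNat).wf
    {g : FlZ | (∀ j i, al j i = false → g j i = 0) ∧ bdz g = bdz g0} ⟨g0, hs, rfl⟩
  refine ⟨g, ⟨hg1, fun c hc hcb => ?_⟩, hg2⟩
  have h1 := hmin (fun j i => g j i + lift c j i) (by
    refine ⟨fun j i h => ?_, ?_⟩
    · show g j i + lift c j i = 0
      rw [hg1 j i h]
      unfold lift
      split_ifs with ha
      · rw [hcb j ⟨i, ha, h⟩]; simp
      · simp
    · funext v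
      rw [bdz_add, bdz_lift c hc v, add_zero, hg2])
  have h2 : WZ g ≤ WZ (fun j i => g j i + lift c j i) := by
    by_contra hlt
    apply h1
    push Not at hlt
    have := WZ_nonneg (fun j i => g j i + lift c j i)
    change (WZ _).toNat < (WZ g).toNat
    omega
  rw [WZ_add g c hc] at h2
  have := DZ_ne g c hc
  omega

/-- integer vectors that are boundaries of integer flows on the alive edges -/
def bdGroup (al : Fin 10 → Fin 3 → Bool) : AddSubgroup (Fin 15 → ℤ) where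
  carrier := {x | ∃ g : FlZ, (∀ j i, al j i = false → g j i = 0) ∧ bdz g = x}
  zero_mem' := ⟨fun _ _ => 0, fun _ _ _ => rfl, by funext v; simp [bdz]⟩
  add_mem' := by
    rintro x y ⟨g, hg, rfl⟩ ⟨h, hh, rfl⟩
    refine ⟨fun j i => g j i + h j i, fun j i hji => by simp [hg j i hji, hh j i hji], ?_⟩
    funext v; rw [bdz_add]; rfl
  neg_mem' := by
    rintro x ⟨g, hg, rfl⟩
    refine ⟨fun j i => - g j i, fun j i hji => by simp [hg j i hji], ?_⟩
    funext v
    simp only [bdz, Pi.neg_apply, neg_mul, Finset.sum_neg_distrib]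

/-- the unit edges of `H` are exactly the alive edges -/
def Describes (al : Fin 10 → Fin 3 → Bool) (H : SimpleGraph (Fin 15)) : Prop :=
  (∀ j i, al j i = true → act j i = true) ∧
  (∀ j i, al j i = true → H.Adj (sV j i) (tV j i)) ∧
  (∀ a b, H.Adj a b → ∃ j i, al j i = true ∧ ((sV j i = a ∧ tV j i = b) ∨ (sV j i = b ∧ tV j i = a)))

theorem adj_mem (al : Fin 10 → Fin 3 → Bool) (H : SimpleGraph (Fin 15)) (hH : Describes al H)
    (a b : Fin 15) (hab : H.Adj a b) :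
    (Pi.single b 1 - Pi.single a 1 : Fin 15 → ℤ) ∈ bdGroup al := by
  have key : ∀ j i, al j i = true →
      (Pi.single (tV j i) 1 - Pi.single (sV j i) 1 : Fin 15 → ℤ) ∈ bdGroup al := by
    intro j i hji
    refine ⟨fun j' i' => if j' = j ∧ i' = i then 1 else 0, ?_, ?_⟩
    · intro j' i' h
      show (if j' = j ∧ i' = i then (1 : ℤ) else 0) = 0
      rw [if_neg]
      rintro ⟨rfl, rfl⟩
      rw [hji] at h; exact absurd h (by decide)
    · funext v
      unfold bdz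
      rw [Finset.sum_eq_single j, Finset.sum_eq_single i]
      · simp only [and_self, if_true, one_mul, inc, Pi.sub_apply, Pi.single_apply]
        simp only [eq_comm]
      · intro b _ hb; simp [hb]
      · simp
      · intro b _ hb
        exact Finset.sum_eq_zero fun i' _ => by simp [hb]
      · simp
  obtain ⟨j, i, hji, ⟨rfl, rfl⟩ | ⟨rfl, rfl⟩⟩ := hH.2.2 a b hab
  · exact key j i hji
  · have := (bdGroup al).neg_mem (key j i hji)
    rwa [neg_sub] at this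

theorem reach_mem (al : Fin 10 → Fin 3 → Bool) (H : SimpleGraph (Fin 15)) (hH : Describes al H)
    (a b : Fin 15) (hab : H.Reachable a b) :
    (Pi.single b 1 - Pi.single a 1 : Fin 15 → ℤ) ∈ bdGroup al := by
  obtain ⟨p⟩ := hab
  induction p with
  | nil => simp only [sub_self]; exact (bdGroup al).zero_mem
  | cons h _ ih =>
    have := (bdGroup al).add_mem ih (adj_mem al H hH _ _ h)
    rwa [sub_add_sub_cancel] at this

theorem sum_mem (al : Fin 10 → Fin 3 → Bool) (H : SimpleGraph (Fin 15)) (hH : Describes al H)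
    (hc : H.Connected) (x : Fin 15 → ℤ) (hx : ∑ v, x v = 0) : x ∈ bdGroup al := by
  have h : x = ∑ v, x v • (Pi.single v 1 - Pi.single 0 1 : Fin 15 → ℤ) := by
    funext u
    simp only [Finset.sum_apply, Pi.smul_apply, Pi.sub_apply, smul_eq_mul, mul_sub,
      Finset.sum_sub_distrib, ← Finset.sum_mul, hx, zero_mul, sub_zero]
    simp [Pi.single_apply]
  rw [h]
  exact AddSubgroup.sum_mem _ fun v _ =>
    AddSubgroup.zsmul_mem _ (reach_mem al H hH 0 v (hc.preconnected 0 v)) _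

theorem inc_sum : ∀ j i, ∑ v, inc j i v = 0 := by decide +kernel

theorem lattice_eq (al : Fin 10 → Fin 3 → Bool) (H : SimpleGraph (Fin 15)) (hH : Describes al H)
    (hc : H.Connected) (k : ℕ) :
    latticeCount (symEdgePolytope H) k =
      Set.ncard {g : FlZ | Valid al g ∧ ∑ j, ∑ i, (g j i).natAbs ≤ k} := by
  have hne : ∃ a b, H.Adj a b := by
    by_contra hcon
    push Not at hcon
    have hr : H.Reachable 0 1 := hc.preconnected 0 1
    obtain ⟨p⟩ := hr
    cases p with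
    | cons h _ => exact hcon _ _ h
  have hP : ∀ x : Fin 15 → ℝ, x ∈ (k : ℝ) • symEdgePolytope H ↔
      ∃ g : FlR, (∀ j i, al j i = false → g j i = 0) ∧ (∀ v, bdr g v = x v) ∧
        ∑ j, ∑ i, |g j i| ≤ k := by
    intro x
    rw [mem_smul_iff H (ι := Fin 10 × Fin 3) (fun e => sV e.1 e.2) (fun e => tV e.1 e.2)
      (fun e => al e.1 e.2 = false) (fun e he => hH.2.1 e.1 e.2 (by simpa using he))
      (fun a b hab => by
        obtain ⟨j, i, h1, h2⟩ := hH.2.2 a b hab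
        exact ⟨(j, i), by simp [h1], h2⟩) hne k (Nat.cast_nonneg k) x]
    constructor
    · rintro ⟨g, h1, h2, h3⟩
      refine ⟨fun j i => g (j, i), fun j i h => h1 (j, i) h, fun v => ?_, ?_⟩
      · rw [← h2 v, Fintype.sum_prod_type]; rfl
      · rw [Fintype.sum_prod_type] at h3; exact h3
    · rintro ⟨g, h1, h2, h3⟩
      refine ⟨fun e => g e.1 e.2, fun e h => h1 e.1 e.2 h, fun v => ?_, ?_⟩
      · rw [← h2 v, Fintype.sum_prod_type]; rfl
      · rw [Fintype.sum_prod_type]; exact h3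
  have hcostR : ∀ g : FlZ, (∑ j, ∑ i, |castF g j i| : ℝ) =
      ((∑ j, ∑ i, (g j i).natAbs : ℕ) : ℝ) := by
    intro g
    push_cast
    refine Finset.sum_congr rfl fun j _ => Finset.sum_congr rfl fun i _ => ?_
    rw [Nat.cast_natAbs]; simp [castF]
  have himg : {x : Fin 15 → ℤ | (fun v => (x v : ℝ)) ∈ (k : ℝ) • symEdgePolytope H} =
      bdz '' {g : FlZ | Valid al g ∧ ∑ j, ∑ i, (g j i).natAbs ≤ k} := by
    ext x
    simp only [Set.mem_ofPred_eq, Set.mem_image]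
    rw [hP]
    constructor
    · rintro ⟨r, h1, h2, h3⟩
      have hx : ∑ v, x v = 0 := by
        have : (∑ v, (x v : ℝ)) = 0 := by
          rw [Finset.sum_congr rfl fun v _ => (h2 v).symm]
          unfold bdr
          rw [Finset.sum_comm]
          refine Finset.sum_eq_zero fun j _ => ?_
          rw [Finset.sum_comm]
          refine Finset.sum_eq_zero fun i _ => ?_
          rw [← Finset.mul_sum, ← Int.cast_sum, inc_sum]; simp
        exact_mod_cast this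
      obtain ⟨g0, hg0, hb0⟩ := sum_mem al H hH hc x hx
      obtain ⟨g, hg, hb⟩ := exists_valid al g0 hg0
      rw [hb0] at hb
      refine ⟨g, ⟨hg, ?_⟩, hb⟩
      have := cost_min al hH.1 g hg r h1 (fun v => by rw [h2 v, hb])
      rw [hcostR] at this
      exact_mod_cast this.trans h3
    · rintro ⟨g, ⟨hg, hk⟩, rfl⟩
      refine ⟨castF g, fun j i h => by simp [castF, hg.1 j i h], fun v => bdr_castF g v, ?_⟩
      rw [hcostR]
      exact_mod_cast hk
  unfold latticeCount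
  rw [himg]
  apply Set.InjOn.ncard_image
  rintro g ⟨hg, -⟩ g' ⟨hg', -⟩ h
  exact valid_inj al hH.1 g g' hg hg' h

end Pool.Agent.SEP
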